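import Mathlib
import Pool.Agent.H932R3.Walk

set_option autoImplicit false

/-!
# Gadgets with prescribed shifts
-/

namespace Pool.Agent.H932R4

open Pool.Agent.H932R3

/-- Iterated differences with prescribed shifts. -/
noncomputable def DL : List ℕ → ℕ → ℝ → ℝ
  | [] => fun j x => (Bf j x - Bf j (x + 2)) - (Bf j (x + 2) - Bf j (x + 2 + 2))
  | s :: M => fun j x => DL M j x - DL M j (x + (s : ℝ))

/-- Admissible lists of shifts. -/
def Adm : List ℕ → Prop
  | [] => True
  | s :: M => s % 4 = 2 ∧ M.sum + 14 ≤ s ∧ Adm M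

theorem DL_good {M : List ℕ} (hM : Adm M) :
    GoodF (DL M) ((4 * M.prod : ℕ) : ℝ) ((4 + M.sum : ℕ) : ℝ) (M.length + 2) := by
  induction M with
  | nil =>
    have h := (GoodF.start.step (s := 2) (by norm_num)).step (s := 2) (by norm_num)
    norm_num at h
    have h1 : ((4 * ([] : List ℕ).prod : ℕ) : ℝ) = 4 := by norm_num
    have h2 : ((4 + ([] : List ℕ).sum : ℕ) : ℝ) = 4 := by norm_num
    rw [h1, h2]
    exact h
  | cons s M ih =>
    obtain ⟨h1, h2, h3⟩ := hM
    have h := (ih h3).step (s := (s : ℝ)) (by exact_mod_cast (show 0 < s by omega))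
    have h4 : ((4 * (s :: M).prod : ℕ) : ℝ) = (s : ℝ) * ((4 * M.prod : ℕ) : ℝ) := by
      rw [List.prod_cons]
      push_cast
      ring
    have h5 : ((4 + (s :: M).sum : ℕ) : ℝ) = ((4 + M.sum : ℕ) : ℝ) + (s : ℝ) := by
      rw [List.sum_cons]
      push_cast
      ring
    rw [h4, h5]
    exact h

/-- The value of the gadget with shifts `M` at `y`. -/
noncomputable def Gd (M : List ℕ) (y : ℝ) : ℝ := DL M 0 y

theorem Gd_nil (y : ℝ) : Gd [] y = Gk 0 y := rfl

theorem Gd_cons (s : ℕ) (M : List ℕ) (y : ℝ) :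
    Gd (s :: M) y = Gd M y - Gd M (y + (s : ℝ)) := rfl

/-- The leading coefficient of the next difference. -/
def nL (M : List ℕ) : ℕ := 4 * M.prod * (M.length + 2).factorial

/-- A difference of a gadget. -/
theorem Gd_diff {M : List ℕ} (hM : Adm M) {y s : ℝ} (hy : 0 < y) (hs : 0 < s) :
    ∃ ξ, y ≤ ξ ∧ ξ ≤ y + (4 + M.sum : ℕ) + s ∧
      Gd M y - Gd M (y + s) = s * nL M / ξ ^ (M.length + 3) := by
  obtain ⟨ξ, h1, h2, h3⟩ := ((DL_good hM).step hs).2 0 y hy
  refine ⟨ξ, h1, by linarith, ?_⟩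
  have h3' : Gd M y - Gd M (y + s) =
      s * ((4 * M.prod : ℕ) : ℝ) * Bf (0 + (M.length + 2 + 1)) ξ := h3
  have h4 : 0 + (M.length + 2 + 1) = (M.length + 2) + 1 := by ring
  rw [h3', h4, Bf_succ]
  unfold nL
  push_cast
  ring

theorem Gd_pos {M : List ℕ} (hM : Adm M) (hp : 0 < M.prod) {y : ℝ} (hy : 0 < y) : 0 < Gd M y := by
  obtain ⟨ξ, h1, h2, h3⟩ := (DL_good hM).2 0 y hy
  have hξ : 0 < ξ := by linarith
  have h3' : Gd M y = ((4 * M.prod : ℕ) : ℝ) * Bf (0 + (M.length + 2)) ξ := h3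
  have h4 : 0 + (M.length + 2) = (M.length + 1) + 1 := by ring
  rw [h3', h4, Bf_succ]
  have : 0 < 4 * M.prod := by omega
  have h5 : (0 : ℝ) < ((4 * M.prod : ℕ) : ℝ) := by exact_mod_cast this
  positivity

theorem Adm.prod_pos {M : List ℕ} (hM : Adm M) : 0 < M.prod := by
  induction M with
  | nil => simp
  | cons s M ih =>
    rw [List.prod_cons]
    exact Nat.mul_pos (by have := hM.2.1; omega) (ih hM.2.2)

theorem Adm.tail {s : ℕ} {M : List ℕ} (hM : Adm (s :: M)) : Adm M := hM.2.2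

theorem Gd_le_zero {M : List ℕ} (hM : Adm M) {y : ℝ} (hy : 0 < y) : Gd M y ≤ Gk 0 y := by
  induction M with
  | nil => exact le_refl _
  | cons s M ih =>
    rw [Gd_cons]
    have := Gd_pos hM.tail hM.tail.prod_pos (y := y + s) (by positivity)
    linarith [ih hM.tail]

theorem nL_pos {M : List ℕ} (hM : Adm M) : 0 < nL M := by
  unfold nL
  have := hM.prod_pos
  have := Nat.factorial_pos (M.length + 2)
  positivity

/-- Gadgets of both signs. -/
theorem RR.gadL {δ r P : ℕ} (hδ : 0 < δ) (hP : 15 ≤ P) (hsm : Small r P) {M : List ℕ}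
    (hM : Adm M) :
    (∀ p y q : ℕ, ∀ T : ℝ, P ≤ p → p % 4 = r % 4 → q % 4 = r % 4 → p + 3 ≤ y →
      y % 4 = (r + 3) % 4 → y + (4 + M.sum) + 7 ≤ q → q ≤ r →
      |T| + (M.length + 1) * Gk 0 P ≤ 1 / (32 * (r : ℝ)) → RR δ r p T →
        RR δ r q (T - Gd M y)) ∧
    (∀ p y q : ℕ, ∀ T : ℝ, P ≤ p → p % 4 = r % 4 → q % 4 = r % 4 → p + 1 ≤ y →
      y % 4 = (r + 1) % 4 → y + (4 + M.sum) + 7 ≤ q → q ≤ r →
      |T| + (M.length + 1) * Gk 0 P ≤ 1 / (32 * (r : ℝ)) → RR δ r p T →
        RR δ r q (T + Gd M y)) := by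
  have hPR : (0 : ℝ) < P := by exact_mod_cast (show 0 < P by omega)
  have hG : ∀ (M : List ℕ), Adm M → ∀ (y : ℕ), P ≤ y → |Gd M (y : ℝ)| ≤ Gk 0 P := by
    intro M hM y hy
    have hy0 : (0 : ℝ) < y := by exact_mod_cast (show 0 < y by omega)
    rw [abs_of_pos (Gd_pos hM hM.prod_pos hy0)]
    refine (Gd_le_zero hM hy0).trans ?_
    rcases Nat.eq_or_lt_of_le hy with h | h
    · rw [h]
    · have h1 : (y : ℝ) = P + (y - P : ℝ) := by ring
      rw [h1]
      refine Gk_anti 0 hPR ?_
      have : (P : ℝ) < y := by exact_mod_cast h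
      linarith
  induction M with
  | nil =>
    obtain ⟨hA, hB⟩ := RR.gad hδ hP hsm (r := r) 0
    have h7 : shS 0 = 4 := rfl
    rw [h7] at hA hB
    constructor
    · intro p y q T hp hmp hmq hpy hy hyq hq hT h
      rw [List.sum_nil] at hyq
      rw [List.length_nil] at hT
      exact hA p y q T hp hmp hmq hpy hy (by omega) hq hT h
    · intro p y q T hp hmp hmq hpy hy hyq hq hT h
      rw [List.sum_nil] at hyq
      rw [List.length_nil] at hT
      exact hB p y q T hp hmp hmq hpy hy (by omega) hq hT h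
  | cons s M ih =>
    obtain ⟨hs2, hs1, hM'⟩ := hM
    have ih' := ih hM'
    have hG0 : 0 < Gk 0 P := Gk_pos 0 hPR
    constructor
    · intro p y q T hp hmp hmq hpy hy hyq hq hT h
      rw [List.sum_cons] at hyq
      rw [List.length_cons] at hT
      push_cast at hT
      have hT1 : |T| + (M.length + 1) * Gk 0 P ≤ 1 / (32 * (r : ℝ)) := by
        linarith
      have h1 := ih'.1 p y (y + s - 1) T hp hmp (by omega) hpy hy (by omega) (by omega) hT1 h
      have hT2 : |T - Gd M y| + (M.length + 1) * Gk 0 P ≤ 1 / (32 * (r : ℝ)) := by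
        have h2 := (abs_sub T (Gd M y))
        have := hG M hM' y (by omega)
        linarith
      have h2 := ih'.2 (y + s - 1) (y + s) q (T - Gd M y) (by omega) (by omega) hmq (by omega)
        (by omega) (by omega) hq hT2 h1
      rw [Gd_cons]
      have h3 : T - (Gd M y - Gd M ((y : ℝ) + (s : ℝ))) = T - Gd M y + Gd M ((y + s : ℕ) : ℝ) := by
        push_cast
        ring
      rw [h3]
      exact h2
    · intro p y q T hp hmp hmq hpy hy hyq hq hT h
      rw [List.sum_cons] at hyq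
      rw [List.length_cons] at hT
      push_cast at hT
      have hT1 : |T| + (M.length + 1) * Gk 0 P ≤ 1 / (32 * (r : ℝ)) := by
        linarith
      have h1 := ih'.2 p y (y + s - 3) T hp hmp (by omega) hpy hy (by omega) (by omega) hT1 h
      have hT2 : |T + Gd M y| + (M.length + 1) * Gk 0 P ≤ 1 / (32 * (r : ℝ)) := by
        have h2 := (abs_add_le T (Gd M y))
        have := hG M hM' y (by omega)
        linarith
      have h2 := ih'.1 (y + s - 3) (y + s) q (T + Gd M y) (by omega) (by omega) hmq (by omega)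
        (by omega) (by omega) hq hT2 h1
      rw [Gd_cons]
      have h3 : T + (Gd M y - Gd M ((y : ℝ) + (s : ℝ))) = T + Gd M y - Gd M ((y + s : ℕ) : ℝ) := by
        push_cast
        ring
      rw [h3]
      exact h2

/-- The constant shifts. -/
def CL : ℕ → List ℕ
  | 0 => []
  | k + 1 => shi k :: CL k

theorem CL_sum (k : ℕ) : 4 + (CL k).sum = shS k := by
  induction k with
  | zero => rfl
  | succ k ih =>
    rw [CL, List.sum_cons, shS, ← ih]
    ring

theorem CL_adm (k : ℕ) : Adm (CL k) := by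
  induction k with
  | zero => trivial
  | succ k ih =>
    refine ⟨shi_mod k, ?_, ih⟩
    have := shS_le k
    have := CL_sum k
    omega

theorem CL_length (k : ℕ) : (CL k).length = k := by
  induction k with
  | zero => rfl
  | succ k ih => rw [CL, List.length_cons, ih]

theorem CL_prod (k : ℕ) : 4 * (CL k).prod = shQ k := by
  induction k with
  | zero => rfl
  | succ k ih =>
    rw [CL, List.prod_cons, shQ, ← ih]
    ring

end Pool.Agent.H932R4
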