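import Mathlib
import Pool.Agent.H932R4.Lists

set_option autoImplicit false

/-!
# Large two-step blocks
-/

namespace Pool.Agent.H932R4

open Pool.Agent.H932R3

/-- The third difference with steps `2`, `2 β - 1`, `2 β + 1`. -/
noncomputable def D3 (β : ℝ) (j : ℕ) (x : ℝ) : ℝ :=
  ((Bf j x - Bf j (x + 2)) - (Bf j (x + (2 * β - 1)) - Bf j (x + (2 * β - 1) + 2))) -
    ((Bf j (x + (2 * β + 1)) - Bf j (x + (2 * β + 1) + 2)) -
      (Bf j (x + (2 * β + 1) + (2 * β - 1)) - Bf j (x + (2 * β + 1) + (2 * β - 1) + 2)))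

theorem D3_good {β : ℝ} (hβ : 1 ≤ β) : GoodF (D3 β) (2 * (4 * β ^ 2 - 1)) (4 * β + 2) 3 := by
  have h := ((GoodF.start.step (s := 2) (by norm_num)).step (s := 2 * β - 1) (by linarith)).step
    (s := 2 * β + 1) (by linarith)
  have h1 : (2 * β + 1) * ((2 * β - 1) * (2 * 1)) = 2 * (4 * β ^ 2 - 1) := by ring
  have h2 : 0 + 2 + (2 * β - 1) + (2 * β + 1) = 4 * β + 2 := by ring
  rw [h1, h2] at h
  exact h

/-- The change of the deviation caused by a block. -/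
noncomputable def Eb (β : ℕ) (p : ℝ) : ℝ := ∑ j ∈ Finset.range β, D3 β 0 (p + 1 + 4 * j)

/-- The size of a block. -/
noncomputable def gb (β : ℝ) : ℝ := 4 * β * (4 * β ^ 2 - 1)

theorem gb_nonneg {β : ℝ} (h : 1 ≤ β) : 0 ≤ gb β := by
  unfold gb
  have : 0 ≤ 4 * β ^ 2 - 1 := by nlinarith
  positivity

theorem Eb_bounds {β : ℕ} (hβ : 1 ≤ β) {p : ℝ} (hp : 0 < p) :
    gb β / (p + 8 * β) ^ 3 ≤ Eb β p ∧ Eb β p ≤ gb β / p ^ 3 := by
  have hβR : (1 : ℝ) ≤ β := by exact_mod_cast hβ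
  have hc : 0 ≤ 4 * (4 * (β : ℝ) ^ 2 - 1) := by nlinarith
  have key : ∀ j ∈ Finset.range β, 4 * (4 * (β : ℝ) ^ 2 - 1) / (p + 8 * β) ^ 3 ≤
      D3 β 0 (p + 1 + 4 * j) ∧ D3 β 0 (p + 1 + 4 * j) ≤ 4 * (4 * (β : ℝ) ^ 2 - 1) / p ^ 3 := by
    intro j hj
    rw [Finset.mem_range] at hj
    have hjR : (j : ℝ) + 1 ≤ β := by exact_mod_cast hj
    have hj0 : (0 : ℝ) ≤ j := Nat.cast_nonneg j
    obtain ⟨ξ, h1, h2, h3⟩ := (D3_good hβR).2 0 (p + 1 + 4 * j) (by positivity)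
    have hξ : 0 < ξ := by linarith
    have h4 : D3 β 0 (p + 1 + 4 * j) = 4 * (4 * (β : ℝ) ^ 2 - 1) / ξ ^ 3 := by
      rw [h3]
      have : (0 : ℕ) + 3 = 2 + 1 := rfl
      rw [this, Bf_succ]
      norm_num [Nat.factorial]
      ring
    rw [h4]
    constructor
    · exact div_le_div_of_nonneg_left hc (by positivity)
        (pow_le_pow_left₀ hξ.le (by linarith) 3)
    · exact div_le_div_of_nonneg_left hc (by positivity)
        (pow_le_pow_left₀ hp.le (by linarith) 3)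
  have hcard : ∀ c : ℝ, ∑ _j ∈ Finset.range β, c = β * c := by
    intro c
    rw [Finset.sum_const, Finset.card_range, nsmul_eq_mul]
  constructor
  · calc gb β / (p + 8 * β) ^ 3 = β * (4 * (4 * (β : ℝ) ^ 2 - 1) / (p + 8 * β) ^ 3) := by
          unfold gb
          ring
      _ = ∑ _j ∈ Finset.range β, 4 * (4 * (β : ℝ) ^ 2 - 1) / (p + 8 * β) ^ 3 := (hcard _).symm
      _ ≤ Eb β p := Finset.sum_le_sum fun j hj => (key j hj).1
  · calc Eb β p ≤ ∑ _j ∈ Finset.range β, 4 * (4 * (β : ℝ) ^ 2 - 1) / p ^ 3 :=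
          Finset.sum_le_sum fun j hj => (key j hj).2
      _ = β * (4 * (4 * (β : ℝ) ^ 2 - 1) / p ^ 3) := hcard _
      _ = gb β / p ^ 3 := by
          unfold gb
          ring

theorem Eb_diff {β : ℕ} (hβ : 1 ≤ β) {p s : ℝ} (hp : 0 < p) (hs : 0 < s) :
    3 * s * gb β / (p + s + 8 * β) ^ 4 ≤ Eb β p - Eb β (p + s) ∧
      Eb β p - Eb β (p + s) ≤ 3 * s * gb β / p ^ 4 := by
  have hβR : (1 : ℝ) ≤ β := by exact_mod_cast hβ
  have hc : 0 ≤ s * (12 * (4 * (β : ℝ) ^ 2 - 1)) := by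
    have : 0 ≤ 4 * (β : ℝ) ^ 2 - 1 := by nlinarith
    positivity
  have key : ∀ j ∈ Finset.range β,
      s * (12 * (4 * (β : ℝ) ^ 2 - 1)) / (p + s + 8 * β) ^ 4 ≤
        D3 β 0 (p + 1 + 4 * j) - D3 β 0 (p + s + 1 + 4 * j) ∧
      D3 β 0 (p + 1 + 4 * j) - D3 β 0 (p + s + 1 + 4 * j) ≤
        s * (12 * (4 * (β : ℝ) ^ 2 - 1)) / p ^ 4 := by
    intro j hj
    rw [Finset.mem_range] at hj
    have hjR : (j : ℝ) + 1 ≤ β := by exact_mod_cast hj
    have hj0 : (0 : ℝ) ≤ j := Nat.cast_nonneg j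
    obtain ⟨ξ, h1, h2, h3⟩ := ((D3_good hβR).step hs).2 0 (p + 1 + 4 * j) (by positivity)
    have hξ : 0 < ξ := by linarith
    have h3' : D3 β 0 (p + 1 + 4 * j) - D3 β 0 (p + 1 + 4 * j + s) =
      s * (2 * (4 * (β : ℝ) ^ 2 - 1)) * Bf (0 + (3 + 1)) ξ := h3
    have e : p + s + 1 + 4 * (j : ℝ) = p + 1 + 4 * j + s := by ring
    have h4 : D3 β 0 (p + 1 + 4 * j) - D3 β 0 (p + s + 1 + 4 * j) =
        s * (12 * (4 * (β : ℝ) ^ 2 - 1)) / ξ ^ 4 := by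
      rw [e, h3']
      have : (0 : ℕ) + (3 + 1) = 3 + 1 := rfl
      rw [this, Bf_succ]
      norm_num [Nat.factorial]
      ring
    rw [h4]
    constructor
    · exact div_le_div_of_nonneg_left hc (by positivity)
        (pow_le_pow_left₀ hξ.le (by linarith) 4)
    · exact div_le_div_of_nonneg_left hc (by positivity)
        (pow_le_pow_left₀ hp.le (by linarith) 4)
  have hcard : ∀ c : ℝ, ∑ _j ∈ Finset.range β, c = β * c := by
    intro c
    rw [Finset.sum_const, Finset.card_range, nsmul_eq_mul]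
  have hE : Eb β p - Eb β (p + s) =
      ∑ j ∈ Finset.range β, (D3 β 0 (p + 1 + 4 * j) - D3 β 0 (p + s + 1 + 4 * j)) := by
    unfold Eb
    rw [Finset.sum_sub_distrib]
  rw [hE]
  constructor
  · calc 3 * s * gb β / (p + s + 8 * β) ^ 4 =
          β * (s * (12 * (4 * (β : ℝ) ^ 2 - 1)) / (p + s + 8 * β) ^ 4) := by
          unfold gb
          ring
      _ = ∑ _j ∈ Finset.range β, s * (12 * (4 * (β : ℝ) ^ 2 - 1)) / (p + s + 8 * β) ^ 4 :=
          (hcard _).symm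
      _ ≤ _ := Finset.sum_le_sum fun j hj => (key j hj).1
  · calc _ ≤ ∑ _j ∈ Finset.range β, s * (12 * (4 * (β : ℝ) ^ 2 - 1)) / p ^ 4 :=
          Finset.sum_le_sum fun j hj => (key j hj).2
      _ = β * (s * (12 * (4 * (β : ℝ) ^ 2 - 1)) / p ^ 4) := hcard _
      _ = 3 * s * gb β / p ^ 4 := by
          unfold gb
          ring

theorem bet_sum (p k : ℕ) : bet (p + 4 * k) = bet p +
    ∑ j ∈ Finset.range k, (Real.log ((p : ℝ) + 4 * j + 3) - Real.log ((p : ℝ) + 4 * j + 1)) := by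
  induction k with
  | zero => simp
  | succ k ih =>
    have h1 : p + 4 * (k + 1) = (p + 4 * k) + 4 := by ring
    rw [h1, bet_add, ih, Finset.sum_range_succ]
    push_cast
    ring

theorem block_identity (β p : ℕ) :
    ∑ j ∈ Finset.range (2 * β),
      (Real.log ((p : ℝ) + 4 * j + 3) - Real.log ((p : ℝ) + 4 * j + 1)) -
      (Real.log ((p : ℝ) + 6 * β) - Real.log ((p : ℝ) + 2 * β)) = Eb β p := by
  have hD : ∀ j : ℕ, D3 β 0 ((p : ℝ) + 1 + 4 * j) =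
      (Real.log ((p : ℝ) + 4 * j + 3) - Real.log ((p : ℝ) + 4 * j + 1)) +
      (Real.log ((p : ℝ) + 4 * (β + j : ℕ) + 3) - Real.log ((p : ℝ) + 4 * (β + j : ℕ) + 1)) -
      (Real.log ((p : ℝ) + 2 * β + 4 * (j + 1 : ℕ)) - Real.log ((p : ℝ) + 2 * β + 4 * j)) := by
    intro j
    unfold D3
    simp only [Bf]
    push_cast
    have e1 : (p : ℝ) + 1 + 4 * j + 2 = p + 4 * j + 3 := by ring
    have e2 : (p : ℝ) + 1 + 4 * j = p + 4 * j + 1 := by ring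
    have e3 : (p : ℝ) + 4 * j + 1 + (2 * β - 1) = p + 2 * β + 4 * j := by ring
    have e4 : (p : ℝ) + 2 * β + 4 * j + 2 = p + 4 * j + 1 + (2 * β + 1) := by ring
    have e5 : (p : ℝ) + 4 * j + 1 + (2 * β + 1) + 2 = p + 2 * β + 4 * (j + 1) := by ring
    have e6 : (p : ℝ) + 4 * j + 1 + (2 * β + 1) + (2 * β - 1) = p + 4 * (β + j) + 1 := by ring
    have e7 : (p : ℝ) + 4 * (β + j) + 1 + 2 = p + 4 * (β + j) + 3 := by ring
    rw [e1, e2, e3, e4, e5, e6, e7]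
    ring
  obtain ⟨A, hA⟩ : ∃ A : ℕ → ℝ, A = fun j : ℕ => Real.log ((p : ℝ) + 4 * j + 3) -
      Real.log ((p : ℝ) + 4 * j + 1) := ⟨_, rfl⟩
  obtain ⟨Z, hZ⟩ : ∃ Z : ℕ → ℝ, Z = fun j : ℕ => Real.log ((p : ℝ) + 2 * β + 4 * (j : ℕ)) :=
    ⟨_, rfl⟩
  have hD' : ∀ j : ℕ, D3 β 0 ((p : ℝ) + 1 + 4 * j) = (A j + A (β + j)) - (Z (j + 1) - Z j) := by
    intro j
    rw [hD j, hA, hZ]
  have h1 : 2 * β = β + β := by ring
  have h2 : Real.log ((p : ℝ) + 6 * β) - Real.log ((p : ℝ) + 2 * β) = Z β - Z 0 := by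
    rw [hZ]
    push_cast
    have e8 : (p : ℝ) + 2 * β + 4 * β = p + 6 * β := by ring
    have e9 : (p : ℝ) + 2 * β + 4 * 0 = p + 2 * β := by ring
    rw [e8, e9]
  have h3 : ∑ j ∈ Finset.range (2 * β),
      (Real.log ((p : ℝ) + 4 * j + 3) - Real.log ((p : ℝ) + 4 * j + 1)) =
      ∑ j ∈ Finset.range β, A j + ∑ j ∈ Finset.range β, A (β + j) := by
    rw [h1, ← Finset.sum_range_add, hA]
  unfold Eb
  rw [h3, h2, Finset.sum_congr rfl fun j _ => hD' j, Finset.sum_sub_distrib,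
    Finset.sum_add_distrib, Finset.sum_range_sub Z β]

theorem RR.stepE {δ r P : ℕ} (hδ : 0 < δ) (hP : 15 ≤ P) (hsm : Small r P) {p : ℕ} (hp : P ≤ p)
    (hpr : p ≤ r) (hmod : p % 4 = r % 4) {T : ℝ} (hT : |T| ≤ 1 / (32 * (r : ℝ))) {β : ℕ}
    (hβ : 1 ≤ β) (hβp : 4 * β ≤ p) (h : RR δ r p T) : RR δ r (p + 8 * β) (T + Eb β p) := by
  obtain ⟨σ, hσ, hlog⟩ := h
  obtain ⟨h1, h2⟩ := hσ.pos hδ |> fun _ => RR.bound hδ hP hsm hp hpr hmod hT hσ hlog
  have hσ0 := hσ.pos hδ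
  have hp15 : (15 : ℝ) ≤ p := by exact_mod_cast (show 15 ≤ p by omega)
  have hβR : (1 : ℝ) ≤ β := by exact_mod_cast hβ
  have hβpR : 4 * (β : ℝ) ≤ p := by exact_mod_cast hβp
  have h3 := Reach.step σ (p + 2 * β) hσ (by push_cast; linarith)
  have h4 := Reach.step _ (p + 6 * β) h3 (by
    push_cast
    rw [div_le_iff₀ hσ0]
    have h5 : ((p : ℝ) + 6 * β) * (p - 1 / 4) ≤ (p + 6 * β) * σ :=
      mul_le_mul_of_nonneg_left h1 (by positivity)
    have h6 : (β : ℝ) * (4 * β) ≤ β * p := mul_le_mul_of_nonneg_left hβpR (by linarith)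
    nlinarith)
  refine ⟨_, h4, ?_⟩
  have h5 := bet_sum p (2 * β)
  have h6 : p + 4 * (2 * β) = p + 8 * β := by ring
  rw [h6] at h5
  have h7 := block_identity β p
  push_cast
  rw [Real.log_div (by positivity) (by positivity), Real.log_div (by positivity) (by positivity),
    Real.log_pow, Real.log_pow, hlog, h5, ← h7]
  push_cast
  ring

end Pool.Agent.H932R4
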