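import Mathlib
import Pool.Agent.H932R4.Block

set_option autoImplicit false

/-!
# Stages of the correction
-/

namespace Pool.Agent.H932R4

open Pool.Agent.H932R3

theorem greedy_le {f : ℕ → ℝ} {q L : ℝ} (hq : 0 ≤ q) : ∀ N : ℕ, f 0 ≤ L → L ≤ f N →
    (∀ i < N, f (i + 1) - f i ≤ q) → ∃ i ≤ N, L - q ≤ f i ∧ f i ≤ L := by
  intro N
  induction N with
  | zero =>
    intro h0 hN _
    exact ⟨0, le_rfl, by linarith, h0⟩
  | succ N ih =>
    intro h0 hN hs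
    rcases le_total L (f N) with h | h
    · obtain ⟨i, hi, h1, h2⟩ := ih h0 h (fun i hi => hs i (by omega))
      exact ⟨i, by omega, h1, h2⟩
    · exact ⟨N, by omega, by linarith [hs N (by omega)], h⟩

theorem greedy_ge {f : ℕ → ℝ} {q L : ℝ} (hq : 0 ≤ q) : ∀ N : ℕ, f 0 ≤ L → L ≤ f N →
    (∀ i < N, f (i + 1) - f i ≤ q) → ∃ i ≤ N, L ≤ f i ∧ f i ≤ L + q := by
  intro N
  induction N with
  | zero =>
    intro h0 hN _
    exact ⟨0, le_rfl, hN, by linarith⟩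
  | succ N ih =>
    intro h0 hN hs
    rcases le_total L (f N) with h | h
    · obtain ⟨i, hi, h1, h2⟩ := ih h0 h (fun i hi => hs i (by omega))
      exact ⟨i, by omega, h1, h2⟩
    · exact ⟨N + 1, le_rfl, hN, by linarith [hs N (by omega)]⟩

/-- The standing assumptions. -/
structure Ctx (δ r P E : ℕ) : Prop where
  hδ : 0 < δ
  hP : 15 ≤ P
  sm : Small r P
  pr : P ≤ r
  pow : ∀ e ≤ E, (r : ℝ) ^ e ≤ 2 * (P : ℝ) ^ e
  bud : (5 + 4 * ((E : ℝ) + 1)) / (P : ℝ) ^ 2 ≤ 1 / (32 * (r : ℝ))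

/-- The resolution of a gadget. -/
noncomputable def qL (P : ℕ) (M : List ℕ) : ℝ := 4 * (nL M : ℝ) / (P : ℝ) ^ (M.length + 3)

section

variable {δ r P E : ℕ}

theorem Ctx.P0 (C : Ctx δ r P E) : (0 : ℝ) < P := by
  exact_mod_cast (show 0 < P by have := C.hP; omega)

theorem Ctx.r0 (C : Ctx δ r P E) : (0 : ℝ) < r :=
  lt_of_lt_of_le C.P0 (by exact_mod_cast C.pr)

theorem Ctx.Gle (C : Ctx δ r P E) : Gk 0 P ≤ 4 / (P : ℝ) ^ 2 := by
  have h := (Gk_bounds 0 C.P0).2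
  have h1 : ck 0 = 4 := by
    unfold ck
    norm_num [shQ]
  rwa [h1] at h

theorem Ctx.tbound (C : Ctx δ r P E) {T : ℝ} (hT : |T| ≤ 5 / (P : ℝ) ^ 2) {k : ℕ} (hk : k ≤ E) :
    |T| + (k + 1) * Gk 0 P ≤ 1 / (32 * (r : ℝ)) := by
  refine le_trans ?_ C.bud
  have h1 := C.Gle
  have h2 : (k : ℝ) ≤ E := by exact_mod_cast hk
  have h0 := C.P0
  have h3 : ((k : ℝ) + 1) * Gk 0 P ≤ (E + 1) * (4 / (P : ℝ) ^ 2) :=
    mul_le_mul (by linarith) h1 (Gk_pos 0 h0).le (by positivity)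
  have h4 : (5 + 4 * ((E : ℝ) + 1)) / (P : ℝ) ^ 2 =
      5 / (P : ℝ) ^ 2 + (E + 1) * (4 / (P : ℝ) ^ 2) := by ring
  rw [h4]
  linarith

theorem Ctx.tbound' (C : Ctx δ r P E) {T : ℝ} (hT : |T| ≤ 5 / (P : ℝ) ^ 2) :
    |T| ≤ 1 / (32 * (r : ℝ)) := by
  have h := C.tbound hT (Nat.zero_le E)
  have := Gk_pos 0 C.P0
  push_cast at h
  linarith

/-- One stage. -/
theorem stageL (C : Ctx δ r P E) {M : List ℕ} (hM : Adm M) (hE : M.length + 1 ≤ E)
    {s0 I p q : ℕ} (hs0 : s0 % 4 = 2) (hs1 : M.sum + 14 ≤ s0) (hp : P ≤ p)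
    (hmp : p % 4 = r % 4) (hmq : q % 4 = r % 4) (hpq : p + 14 + M.sum + s0 + 4 * I ≤ q)
    (hq : q ≤ r) {A B : ℝ} (hA : (nL M : ℝ) * (s0 + 8) / (P : ℝ) ^ (M.length + 3) ≤ A)
    (hB : B ≤ (nL M : ℝ) * (s0 + 4 * I) / (r : ℝ) ^ (M.length + 3)) (hB5 : B ≤ 5 / (P : ℝ) ^ 2)
    {T : ℝ} (hAT : A ≤ T) (hTB : T ≤ B) (h : RR δ r p T) :
    ∃ T', RR δ r q T' ∧ qL P M ≤ T' ∧ T' ≤ 2 * qL P M := by
  have hP0 := C.P0
  have hr0 := C.r0
  have hN := nL_pos hM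
  have hNR : (0 : ℝ) < nL M := by exact_mod_cast hN
  have hq0 : 0 < qL P M := by
    unfold qL
    positivity
  have hs00 : (0 : ℝ) < s0 := by exact_mod_cast (show 0 < s0 by omega)
  have hpR : (P : ℝ) ≤ p := by exact_mod_cast hp
  obtain ⟨y, hy⟩ : ∃ y : ℝ, y = ((p + 3 : ℕ) : ℝ) := ⟨_, rfl⟩
  have hyP : (P : ℝ) ≤ y := by rw [hy]; push_cast; linarith
  have hy0 : 0 < y := by linarith
  have hA' : (nL M : ℝ) * s0 / (P : ℝ) ^ (M.length + 3) + 2 * qL P M ≤ A := by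
    refine le_trans (le_of_eq ?_) hA
    unfold qL
    ring
  obtain ⟨i, hi, h1, h2⟩ := greedy_le (f := fun i : ℕ => Gd M y - Gd M (y + ((s0 : ℝ) + 4 * i)))
    (q := qL P M) (L := T - qL P M) hq0.le I (by
      obtain ⟨ξ, h1, h2, h3⟩ := Gd_diff hM hy0 hs00
      have h4 : (s0 : ℝ) * nL M / ξ ^ (M.length + 3) ≤ nL M * s0 / (P : ℝ) ^ (M.length + 3) := by
        rw [mul_comm (s0 : ℝ)]
        exact div_le_div_of_nonneg_left (by positivity) (by positivity)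
          (pow_le_pow_left₀ hP0.le (by linarith) _)
      have e : y + ((s0 : ℝ) + 4 * ((0 : ℕ) : ℝ)) = y + s0 := by push_cast; ring
      show Gd M y - Gd M (y + ((s0 : ℝ) + 4 * ((0 : ℕ) : ℝ))) ≤ _
      rw [e, h3]
      linarith) (by
      have hs : (0 : ℝ) < (s0 : ℝ) + 4 * (I : ℝ) := by positivity
      obtain ⟨ξ, h1, h2, h3⟩ := Gd_diff hM hy0 hs
      have hξ : 0 < ξ := by linarith
      have h4 : (nL M : ℝ) * (s0 + 4 * I) / (r : ℝ) ^ (M.length + 3) ≤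
          ((s0 : ℝ) + 4 * I) * nL M / ξ ^ (M.length + 3) := by
        rw [mul_comm ((s0 : ℝ) + 4 * I)]
        refine div_le_div_of_nonneg_left (by positivity) (by positivity)
          (pow_le_pow_left₀ hξ.le ?_ _)
        have h5 : y + (4 + M.sum : ℕ) + ((s0 : ℝ) + 4 * I) ≤ r := by
          rw [hy]
          have : p + 3 + (4 + M.sum) + (s0 + 4 * I) ≤ r := by omega
          exact_mod_cast this
        linarith
      show _ ≤ Gd M y - Gd M (y + ((s0 : ℝ) + 4 * (I : ℝ)))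
      rw [h3]
      linarith) (by
      intro i _
      have hyi : 0 < y + ((s0 : ℝ) + 4 * (i : ℝ)) := by positivity
      obtain ⟨ξ, h1, h2, h3⟩ := Gd_diff hM hyi (s := 4) (by norm_num)
      have e : y + ((s0 : ℝ) + 4 * ((i + 1 : ℕ) : ℝ)) = y + ((s0 : ℝ) + 4 * (i : ℝ)) + 4 := by
        push_cast
        ring
      have hi0 : (0 : ℝ) ≤ i := Nat.cast_nonneg i
      have h4 : (4 : ℝ) * nL M / ξ ^ (M.length + 3) ≤ qL P M := by
        unfold qL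
        exact div_le_div_of_nonneg_left (by positivity) (by positivity)
          (pow_le_pow_left₀ hP0.le (by linarith) _)
      show (Gd M y - Gd M (y + ((s0 : ℝ) + 4 * ((i + 1 : ℕ) : ℝ)))) -
        (Gd M y - Gd M (y + ((s0 : ℝ) + 4 * (i : ℝ)))) ≤ _
      rw [e]
      linarith)
  have hadm : Adm ((s0 + 4 * i) :: M) := ⟨by omega, by omega, hM⟩
  have hT0 : 0 < T := by
    have : 0 < (nL M : ℝ) * (s0 + 8) / (P : ℝ) ^ (M.length + 3) := by positivity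
    linarith
  have h3 := (RR.gadL C.hδ C.hP C.sm hadm).1 p (p + 3) q T hp hmp hmq le_rfl (by omega)
    (by rw [List.sum_cons]; omega) hq (by
      rw [List.length_cons]
      exact C.tbound (k := M.length + 1) (by
        rw [abs_of_pos hT0]
        linarith) hE) h
  refine ⟨_, h3, ?_, ?_⟩
  · rw [Gd_cons, ← hy]
    push_cast
    have h2' : Gd M y - Gd M (y + ((s0 : ℝ) + 4 * i)) ≤ T - qL P M := h2
    linarith
  · rw [Gd_cons, ← hy]
    push_cast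
    have h1' : T - qL P M - qL P M ≤ Gd M y - Gd M (y + ((s0 : ℝ) + 4 * i)) := h1
    linarith

theorem qL_nonneg (P : ℕ) (M : List ℕ) : 0 ≤ qL P M := by
  unfold qL
  positivity

/-- A stage after another one of the same order. -/
theorem stage_same (C : Ctx δ r P E) {M M' : List ℕ} (hM : Adm M')
    (hlen : M'.length = M.length) (hE : M'.length + 3 ≤ E) (hq5 : 2 * qL P M ≤ 5 / (P : ℝ) ^ 2)
    {s0 I p q : ℕ} (hs0 : s0 % 4 = 2) (hs1 : M'.sum + 14 ≤ s0) (hp : P ≤ p)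
    (hmp : p % 4 = r % 4) (hmq : q % 4 = r % 4) (hpq : p + 14 + M'.sum + s0 + 4 * I ≤ q)
    (hq : q ≤ r) (h1 : nL M' * (s0 + 8) ≤ 4 * nL M) (h2 : 16 * nL M ≤ nL M' * (s0 + 4 * I))
    (h : ∃ T, RR δ r p T ∧ qL P M ≤ T ∧ T ≤ 2 * qL P M) :
    ∃ T', RR δ r q T' ∧ qL P M' ≤ T' ∧ T' ≤ 2 * qL P M' := by
  obtain ⟨T, hT, hT1, hT2⟩ := h
  have hP0 := C.P0
  have hr0 := C.r0
  refine stageL C hM (by omega) hs0 hs1 hp hmp hmq hpq hq (A := qL P M) (B := 2 * qL P M) ?_ ?_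
    hq5 hT1 hT2 hT
  · unfold qL
    rw [hlen]
    refine div_le_div_of_nonneg_right ?_ (by positivity)
    exact_mod_cast h1
  · unfold qL
    rw [hlen, mul_div_assoc', div_le_div_iff₀ (by positivity) (by positivity)]
    have h3 := C.pow (M.length + 3) (by omega)
    have h4 : (16 * (nL M : ℝ)) ≤ (nL M' : ℝ) * (s0 + 4 * I) := by exact_mod_cast h2
    calc 2 * (4 * (nL M : ℝ)) * (r : ℝ) ^ (M.length + 3)
        ≤ 2 * (4 * (nL M : ℝ)) * (2 * (P : ℝ) ^ (M.length + 3)) :=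
          mul_le_mul_of_nonneg_left h3 (by positivity)
      _ = 16 * (nL M : ℝ) * (P : ℝ) ^ (M.length + 3) := by ring
      _ ≤ (nL M' : ℝ) * (s0 + 4 * I) * (P : ℝ) ^ (M.length + 3) :=
          mul_le_mul_of_nonneg_right h4 (by positivity)

/-- A stage of the next order. -/
theorem stage_next (C : Ctx δ r P E) {M M' : List ℕ} (hM : Adm M')
    (hlen : M'.length = M.length + 1) (hE : M'.length + 3 ≤ E)
    (hq5 : 2 * qL P M ≤ 5 / (P : ℝ) ^ 2)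
    {s0 I p q : ℕ} (hs0 : s0 % 4 = 2) (hs1 : M'.sum + 14 ≤ s0) (hp : P ≤ p)
    (hmp : p % 4 = r % 4) (hmq : q % 4 = r % 4) (hpq : p + 14 + M'.sum + s0 + 4 * I ≤ q)
    (hq : q ≤ r) (h1 : nL M' * (s0 + 8) ≤ 4 * nL M * P)
    (h2 : 16 * nL M * P ≤ nL M' * (s0 + 4 * I))
    (h : ∃ T, RR δ r p T ∧ qL P M ≤ T ∧ T ≤ 2 * qL P M) :
    ∃ T', RR δ r q T' ∧ qL P M' ≤ T' ∧ T' ≤ 2 * qL P M' := by
  obtain ⟨T, hT, hT1, hT2⟩ := h
  have hP0 := C.P0
  have hr0 := C.r0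
  have e4 : M.length + 1 + 3 = M.length + 3 + 1 := by ring
  refine stageL C hM (by omega) hs0 hs1 hp hmp hmq hpq hq (A := qL P M) (B := 2 * qL P M) ?_ ?_
    hq5 hT1 hT2 hT
  · unfold qL
    rw [hlen, e4, div_le_div_iff₀ (by positivity) (by positivity), pow_succ (P : ℝ)]
    have h3 : (nL M' : ℝ) * (s0 + 8) ≤ 4 * nL M * P := by exact_mod_cast h1
    calc (nL M' : ℝ) * (s0 + 8) * (P : ℝ) ^ (M.length + 3)
        ≤ 4 * nL M * P * (P : ℝ) ^ (M.length + 3) := mul_le_mul_of_nonneg_right h3 (by positivity)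
      _ = 4 * (nL M : ℝ) * ((P : ℝ) ^ (M.length + 3) * P) := by ring
  · unfold qL
    rw [hlen, e4, mul_div_assoc', div_le_div_iff₀ (by positivity) (by positivity)]
    have h3 := C.pow (M.length + 3 + 1) (by omega)
    have h4 : (16 * (nL M : ℝ) * P) ≤ (nL M' : ℝ) * (s0 + 4 * I) := by exact_mod_cast h2
    calc 2 * (4 * (nL M : ℝ)) * (r : ℝ) ^ (M.length + 3 + 1)
        ≤ 2 * (4 * (nL M : ℝ)) * (2 * (P : ℝ) ^ (M.length + 3 + 1)) :=
          mul_le_mul_of_nonneg_left h3 (by positivity)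
      _ = 16 * (nL M : ℝ) * P * (P : ℝ) ^ (M.length + 3) := by rw [pow_succ]; ring
      _ ≤ (nL M' : ℝ) * (s0 + 4 * I) * (P : ℝ) ^ (M.length + 3) :=
          mul_le_mul_of_nonneg_right h4 (by positivity)

end

end Pool.Agent.H932R4
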