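import Mathlib
import Pool.Agent.H932R4.Levels

set_option autoImplicit false

/-!
# The initial phase of the correction
-/

namespace Pool.Agent.H932R4

open Pool.Agent.H932R3

theorem Eb_zero (p : ℝ) : Eb 0 p = 0 := by
  unfold Eb
  simp

theorem gb_eq (β : ℝ) : gb β = 16 * β ^ 3 - 4 * β := by
  unfold gb
  ring

theorem Eb_step {N β : ℕ} (h : β + 1 ≤ N) {p : ℝ} (hp : 1 ≤ p) :
    Eb (β + 1) p - Eb β p ≤ (48 * (N : ℝ) ^ 2 + 384 * (N : ℝ) ^ 4 / p) / p ^ 3 := by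
  have hp0 : 0 < p := by linarith
  have hNR : (β : ℝ) + 1 ≤ N := by exact_mod_cast h
  have hβ0 : (0 : ℝ) ≤ β := Nat.cast_nonneg β
  have h1 := (Eb_bounds (β := β + 1) (by omega) hp0).2
  have h2 : gb β * (1 - 24 * β / p) / p ^ 3 ≤ Eb β p := by
    rcases Nat.eq_zero_or_pos β with rfl | hβ
    · rw [Eb_zero]
      unfold gb
      simp
    · refine le_trans ?_ (Eb_bounds hβ hp0).1
      have hβ1 : (1 : ℝ) ≤ β := by exact_mod_cast hβ
      have hg := gb_nonneg hβ1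
      rw [mul_div_assoc]
      have h3 : (1 - 24 * (β : ℝ) / p) / p ^ 3 ≤ 1 / (p + 8 * β) ^ 3 := by
        rw [div_le_div_iff₀ (by positivity) (by positivity)]
        have h4 : (1 : ℝ) - 24 * β / p = (p - 24 * β) / p := by field_simp
        rw [h4, div_mul_eq_mul_div, div_le_iff₀ hp0]
        have h5 : 1 * p ^ 3 * p - (p - 24 * β) * (p + 8 * β) ^ 3 =
            384 * p ^ 2 * β ^ 2 + 4096 * p * β ^ 3 + 12288 * β ^ 4 := by ring
        have h6 : 0 ≤ 384 * p ^ 2 * β ^ 2 + 4096 * p * β ^ 3 + 12288 * (β : ℝ) ^ 4 := by positivity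
        linarith
      calc gb β * ((1 - 24 * (β : ℝ) / p) / p ^ 3) ≤ gb β * (1 / (p + 8 * β) ^ 3) :=
            mul_le_mul_of_nonneg_left h3 hg
        _ = gb β / (p + 8 * β) ^ 3 := by ring
  have h3 : gb ((β + 1 : ℕ) : ℝ) - gb β * (1 - 24 * β / p) ≤
      48 * (N : ℝ) ^ 2 + 384 * (N : ℝ) ^ 4 / p := by
    rw [gb_eq, gb_eq]
    push_cast
    have e : (16 * ((β : ℝ) + 1) ^ 3 - 4 * (β + 1)) - (16 * β ^ 3 - 4 * β) * (1 - 24 * β / p) =
        (48 * β ^ 2 + 48 * β + 12) + (384 * β ^ 4 - 96 * β ^ 2) / p := by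
      field_simp
      ring
    rw [e]
    have h4 : 48 * (β : ℝ) ^ 2 + 48 * β + 12 ≤ 48 * (N : ℝ) ^ 2 := by nlinarith
    have h5 : (384 * (β : ℝ) ^ 4 - 96 * β ^ 2) / p ≤ 384 * (N : ℝ) ^ 4 / p := by
      refine div_le_div_of_nonneg_right ?_ hp0.le
      have : (β : ℝ) ^ 4 ≤ (N : ℝ) ^ 4 := pow_le_pow_left₀ hβ0 (by linarith) 4
      have : 0 ≤ (β : ℝ) ^ 2 := by positivity
      linarith
    linarith
  calc Eb (β + 1) p - Eb β p ≤ gb ((β + 1 : ℕ) : ℝ) / p ^ 3 - gb β * (1 - 24 * β / p) / p ^ 3 := by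
        linarith
    _ = (gb ((β + 1 : ℕ) : ℝ) - gb β * (1 - 24 * β / p)) / p ^ 3 := by ring
    _ ≤ _ := div_le_div_of_nonneg_right h3 (by positivity)

/-- Numerical facts used in the initial phase. -/
structure Num (x R Q U V : ℝ) : Prop where
  x1 : 1000 ≤ x
  xR : x ^ 18 ≤ R
  Rx : R ≤ 2 * x ^ 18
  Q0 : 0 < Q
  QR : Q ≤ R
  QR2 : R / 2 ≤ Q
  U0 : 0 < U
  V0 : 0 < V
  UV : U = R * V
  a6 : 1000000 * x ^ 4 ≤ x ^ 6
  a8 : 1000000 * x ^ 6 ≤ x ^ 8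
  a12 : 1000000 * x ^ 8 ≤ x ^ 12
  a18 : 1000000 * x ^ 12 ≤ x ^ 18
  a41 : 1 ≤ x ^ 4
  up3 : ∀ (a p : ℝ), 0 ≤ a → Q ≤ p → a / p ^ 3 ≤ 1.01 * a * U
  up4 : ∀ (a p : ℝ), 0 ≤ a → Q ≤ p → a / p ^ 4 ≤ 1.01 * a * V
  lo3 : ∀ (a p : ℝ), 0 ≤ a → 0 < p → p ≤ R → a * U ≤ a / p ^ 3
  lo4 : ∀ (a p : ℝ), 0 ≤ a → 0 < p → p ≤ R → a * V ≤ a / p ^ 4

theorem num_of {x R Q : ℝ} (hx1 : 1000 ≤ x) (hxR : x ^ 18 ≤ R) (hRx : R ≤ 2 * x ^ 18)
    (hP0 : 0 < Q) (hQR : Q ≤ R) (hPr : 100 * R ^ 4 ≤ 101 * Q ^ 4) :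
    Num x R Q (1 / R ^ 3) (1 / R ^ 4) := by
  have hx0 : 0 < x := by linarith
  have hr0 : 0 < R := by linarith
  have hQ4 : 1 / Q ^ 4 ≤ 1.01 * (1 / R ^ 4) := by
    rw [mul_one_div, div_le_div_iff₀ (by positivity) (by positivity)]
    linarith
  have hQ3 : 1 / Q ^ 3 ≤ 1.01 * (1 / R ^ 3) := by
    have e1 : 1 / Q ^ 3 = Q * (1 / Q ^ 4) := by field_simp
    have e2 : 1 / R ^ 3 = R * (1 / R ^ 4) := by field_simp
    rw [e1, e2]
    calc Q * (1 / Q ^ 4) ≤ R * (1.01 * (1 / R ^ 4)) :=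
          mul_le_mul hQR hQ4 (by positivity) hr0.le
      _ = 1.01 * (R * (1 / R ^ 4)) := by ring
  have a4 : 0 < x ^ 4 := by positivity
  have a6 : 1000000 * x ^ 4 ≤ x ^ 6 := by
    have : x ^ 6 = x ^ 2 * x ^ 4 := by ring
    rw [this]
    exact mul_le_mul_of_nonneg_right (by nlinarith) a4.le
  have a8 : 1000000 * x ^ 6 ≤ x ^ 8 := by
    have : x ^ 8 = x ^ 2 * x ^ 6 := by ring
    rw [this]
    exact mul_le_mul_of_nonneg_right (by nlinarith) (by positivity)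
  refine ⟨hx1, hxR, hRx, hP0, hQR, ?_, by positivity, by positivity, by field_simp, a6, a8,
    ?_, ?_, one_le_pow₀ (by linarith), ?_, ?_, ?_, ?_⟩
  · by_contra hcon
    have h2 : Q < R / 2 := not_le.1 hcon
    have h3 : Q ^ 4 ≤ (R / 2) ^ 4 := pow_le_pow_left₀ hP0.le h2.le 4
    have h4 : 0 < R ^ 4 := by positivity
    have h5 : (R / 2) ^ 4 = R ^ 4 / 16 := by ring
    linarith
  · have : x ^ 12 = x ^ 4 * x ^ 8 := by ring
    rw [this]
    refine mul_le_mul_of_nonneg_right ?_ (by positivity)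
    nlinarith [sq_nonneg (x ^ 2 - 1000000)]
  · have : x ^ 18 = x ^ 6 * x ^ 12 := by ring
    rw [this]
    refine mul_le_mul_of_nonneg_right ?_ (by positivity)
    have : 1 ≤ x ^ 4 := one_le_pow₀ (by linarith)
    linarith
  · intro a p ha hp
    have h1 : 1 / p ^ 3 ≤ 1 / Q ^ 3 := one_div_le_one_div_of_le (by positivity)
      (pow_le_pow_left₀ hP0.le hp 3)
    calc a / p ^ 3 = a * (1 / p ^ 3) := by ring
      _ ≤ a * (1.01 * (1 / R ^ 3)) := mul_le_mul_of_nonneg_left (h1.trans hQ3) ha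
      _ = 1.01 * a * (1 / R ^ 3) := by ring
  · intro a p ha hp
    have h1 : 1 / p ^ 4 ≤ 1 / Q ^ 4 := one_div_le_one_div_of_le (by positivity)
      (pow_le_pow_left₀ hP0.le hp 4)
    calc a / p ^ 4 = a * (1 / p ^ 4) := by ring
      _ ≤ a * (1.01 * (1 / R ^ 4)) := mul_le_mul_of_nonneg_left (h1.trans hQ4) ha
      _ = 1.01 * a * (1 / R ^ 4) := by ring
  · intro a p ha hp0 hp
    have h1 : 1 / R ^ 3 ≤ 1 / p ^ 3 := one_div_le_one_div_of_le (by positivity)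
      (pow_le_pow_left₀ hp0.le hp 3)
    calc a * (1 / R ^ 3) ≤ a * (1 / p ^ 3) := mul_le_mul_of_nonneg_left h1 ha
      _ = a / p ^ 3 := by ring
  · intro a p ha hp0 hp
    have h1 : 1 / R ^ 4 ≤ 1 / p ^ 4 := one_div_le_one_div_of_le (by positivity)
      (pow_le_pow_left₀ hp0.le hp 4)
    calc a * (1 / R ^ 4) ≤ a * (1 / p ^ 4) := mul_le_mul_of_nonneg_left h1 ha
      _ = a / p ^ 4 := by ring

/-- The size of the first block. -/
theorem num1 {B : ℕ} {x R Q U V p T0 : ℝ} (H : Num x R Q U V) (hx : x = B) (hp : Q ≤ p)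
    (hpr : p + 32 * x ^ 8 ≤ R) (hT1 : -(4.7 * (R * U)) ≤ T0) (hT2 : T0 ≤ -(3.9 * (R * U))) :
    ∃ β : ℕ, β ≤ B ^ 6 ∧ 1 ≤ β ∧ -(66 * x ^ 12 * U) ≤ T0 + Eb β p ∧
      T0 + Eb β p ≤ -(16 * x ^ 12 * U) ∧ gb β ≤ 4.7 * R ∧ 3.85 * R ≤ gb β := by
  obtain ⟨x1, xR, Rx, Q0, QR, QR2, U0, V0, UV, a6, a8, a12, a18, a41, up3, up4, lo3, lo4⟩ := H
  clear up4 lo4
  have hx0 : 0 < x := by linarith
  have hp0 : 0 < p := by linarith
  have hp1 : 1 ≤ p := by linarith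
  have hRU : 0 < R * U := by
    have : 0 < R := by linarith
    positivity
  have h12U : x ^ 12 * U ≤ 0.000001 * (R * U) := by
    calc x ^ 12 * U ≤ (0.000001 * R) * U := mul_le_mul_of_nonneg_right (by linarith) U0.le
      _ = 0.000001 * (R * U) := by ring
  have h12U0 : 0 < x ^ 12 * U := by positivity
  have hB1 : 1 ≤ B := by
    have : (1 : ℝ) ≤ B := by rw [← hx]; linarith
    exact_mod_cast this
  obtain ⟨β1, hβ1, h1a, h1b⟩ := greedy_le (f := fun β : ℕ => Eb β p)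
    (q := 50 * x ^ 12 * U) (L := -T0 - 16 * x ^ 12 * U) (by positivity) (B ^ 6) (by
      show Eb 0 p ≤ _
      rw [Eb_zero]
      linarith) (by
      have h1 := (Eb_bounds (β := B ^ 6) (Nat.one_le_pow _ _ (by omega)) hp0).1
      refine le_trans ?_ h1
      push_cast
      rw [← hx]
      have h2 : gb (x ^ 6) = 16 * x ^ 18 - 4 * x ^ 6 := by rw [gb_eq]; ring
      rw [h2]
      refine le_trans ?_ (lo3 _ _ (by linarith) (by positivity) (by linarith))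
      have h3 : (4.7 * R) * U ≤ (16 * x ^ 18 - 4 * x ^ 6) * U :=
        mul_le_mul_of_nonneg_right (by linarith) U0.le
      linarith) (by
      intro i hi
      refine (Eb_step (N := B ^ 6) (by omega) hp1).trans ?_
      push_cast
      rw [← hx]
      refine (up3 _ _ (by positivity) hp).trans ?_
      have h1 : 384 * (x ^ 6) ^ 4 / p ≤ 768 * x ^ 6 := by
        rw [div_le_iff₀ hp0]
        have : x ^ 18 ≤ 2 * p := by linarith
        calc 384 * (x ^ 6) ^ 4 = 384 * x ^ 6 * x ^ 18 := by ring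
          _ ≤ 384 * x ^ 6 * (2 * p) := mul_le_mul_of_nonneg_left this (by positivity)
          _ = 768 * x ^ 6 * p := by ring
      have h2 : (x ^ 6) ^ 2 = x ^ 12 := by ring
      rw [h2]
      exact mul_le_mul_of_nonneg_right (by linarith) U0.le)
  have hβ1pos : 1 ≤ β1 := by
    by_contra hcon
    have : β1 = 0 := by omega
    rw [this, Eb_zero] at h1a
    linarith
  have hg1 := Eb_bounds hβ1pos hp0
  have hβ1R : (β1 : ℝ) ≤ x ^ 6 := by rw [hx]; exact_mod_cast hβ1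
  have hβ1R1 : (1 : ℝ) ≤ β1 := by exact_mod_cast hβ1pos
  have hgb1 := gb_nonneg hβ1R1
  refine ⟨β1, hβ1, hβ1pos, by linarith, by linarith, ?_, ?_⟩
  · have h1 := lo3 (gb β1) (p + 8 * β1) hgb1 (by positivity) (by linarith)
    have h2 : gb β1 * U ≤ (4.7 * R) * U := by linarith [hg1.1]
    exact le_of_mul_le_mul_right h2 U0
  · have h1 := up3 (gb β1) p hgb1 hp
    have h2 : (3.85 * R) * U ≤ gb β1 * U := by linarith [hg1.2]
    exact le_of_mul_le_mul_right h2 U0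

/-- The size of the second block. -/
theorem num2 {B : ℕ} {x R Q U V p T1 : ℝ} (H : Num x R Q U V) (hx : x = B) (hp : Q ≤ p)
    (hpr : p + 4 * x ^ 8 ≤ R) (hT1 : -(66 * x ^ 12 * U) ≤ T1) (hT2 : T1 ≤ -(16 * x ^ 12 * U)) :
    ∃ β : ℕ, β ≤ 2 * B ^ 4 ∧ 1 ≤ β ∧ x ^ 8 * U ≤ T1 + Eb β p ∧
      T1 + Eb β p ≤ 201 * x ^ 8 * U ∧ gb β ≤ 67 * x ^ 12 ∧ 15.8 * x ^ 12 ≤ gb β := by
  obtain ⟨x1, xR, Rx, Q0, QR, QR2, U0, V0, UV, a6, a8, a12, a18, a41, up3, up4, lo3, lo4⟩ := H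
  clear up4 lo4
  have hx0 : 0 < x := by linarith
  have hp0 : 0 < p := by linarith
  have hp1 : 1 ≤ p := by linarith
  have h12U0 : 0 < x ^ 12 * U := by positivity
  have h812 : 1000000 * (x ^ 8 * U) ≤ x ^ 12 * U := by
    calc 1000000 * (x ^ 8 * U) = (1000000 * x ^ 8) * U := by ring
      _ ≤ x ^ 12 * U := mul_le_mul_of_nonneg_right a12 U0.le
  have hx8U : 0 < x ^ 8 * U := by positivity
  have hB1 : 1 ≤ B := by
    have : (1 : ℝ) ≤ B := by rw [← hx]; linarith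
    exact_mod_cast this
  obtain ⟨β2, hβ2, h2a, h2b⟩ := greedy_ge (f := fun β : ℕ => Eb β p)
    (q := 200 * x ^ 8 * U) (L := x ^ 8 * U - T1) (by positivity) (2 * B ^ 4) (by
      show Eb 0 p ≤ _
      rw [Eb_zero]
      linarith) (by
      have h1 := (Eb_bounds (β := 2 * B ^ 4) (by
        have : 0 < B ^ 4 := by positivity
        omega) hp0).1
      refine le_trans ?_ h1
      push_cast
      rw [← hx]
      have h2 : gb (2 * x ^ 4) = 128 * x ^ 12 - 8 * x ^ 4 := by rw [gb_eq]; ring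
      rw [h2]
      refine le_trans ?_ (lo3 _ _ (by linarith) (by positivity) (by linarith))
      have h3 : (67 * x ^ 12) * U ≤ (128 * x ^ 12 - 8 * x ^ 4) * U :=
        mul_le_mul_of_nonneg_right (by linarith) U0.le
      linarith) (by
      intro i hi
      refine (Eb_step (N := 2 * B ^ 4) (by omega) hp1).trans ?_
      push_cast
      rw [← hx]
      refine (up3 _ _ (by positivity) hp).trans ?_
      have h1 : 384 * (2 * x ^ 4) ^ 4 / p ≤ x ^ 8 := by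
        rw [div_le_iff₀ hp0]
        have h3 : 6144 * x ^ 8 ≤ p := by linarith
        calc 384 * (2 * x ^ 4) ^ 4 = x ^ 8 * (6144 * x ^ 8) := by ring
          _ ≤ x ^ 8 * p := mul_le_mul_of_nonneg_left h3 (by positivity)
      have h2 : (2 * x ^ 4) ^ 2 = 4 * x ^ 8 := by ring
      rw [h2]
      exact mul_le_mul_of_nonneg_right (by linarith) U0.le)
  have hβ2pos : 1 ≤ β2 := by
    by_contra hcon
    have : β2 = 0 := by omega
    rw [this, Eb_zero] at h2a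
    linarith
  have hg2 := Eb_bounds hβ2pos hp0
  have hβ2R : (β2 : ℝ) ≤ 2 * x ^ 4 := by rw [hx]; exact_mod_cast hβ2
  have hβ2R1 : (1 : ℝ) ≤ β2 := by exact_mod_cast hβ2pos
  have hgb2 := gb_nonneg hβ2R1
  refine ⟨β2, hβ2, hβ2pos, by linarith, by linarith, ?_, ?_⟩
  · have h1 := lo3 (gb β2) (p + 8 * β2) hgb2 (by positivity) (by linarith)
    have : gb β2 * U ≤ (67 * x ^ 12) * U := by linarith [hg2.1]
    exact le_of_mul_le_mul_right this U0
  · have h1 := up3 (gb β2) p hgb2 hp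
    have : (15.8 * x ^ 12) * U ≤ gb β2 * U := by linarith [hg2.2]
    exact le_of_mul_le_mul_right this U0

/-- The position of a block. -/
theorem num34 {N β : ℕ} {R Q V p T L g₁ g₂ : ℝ} (hβ : 1 ≤ β) (hV : 0 < V)
    (up4 : ∀ (a p : ℝ), 0 ≤ a → Q ≤ p → a / p ^ 4 ≤ 1.01 * a * V)
    (lo4 : ∀ (a p : ℝ), 0 ≤ a → 0 < p → p ≤ R → a * V ≤ a / p ^ 4)
    (hp0 : 0 < p) (hp : Q ≤ p) (hpr : p + 4 * N + 8 * β ≤ R)
    (hg1 : g₁ ≤ gb β) (hg2 : gb β ≤ g₂) (hL : L ≤ T) (hT : T - L ≤ 12 * N * g₁ * V) (hg0 : 0 ≤ g₁) :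
    ∃ i : ℕ, i ≤ N ∧ L ≤ T - (Eb β p - Eb β (p + 4 * i)) ∧
      T - (Eb β p - Eb β (p + 4 * i)) ≤ L + 12.12 * g₂ * V := by
  have hβR : (1 : ℝ) ≤ β := by exact_mod_cast hβ
  have hgb := gb_nonneg hβR
  obtain ⟨i, hi, h3a, h3b⟩ := greedy_le
    (f := fun i : ℕ => Eb β p - Eb β (p + 4 * i))
    (q := 12.12 * g₂ * V) (L := T - L) (by
      have : 0 ≤ g₂ := by linarith
      positivity) N (by
      show Eb β p - Eb β (p + 4 * ((0 : ℕ) : ℝ)) ≤ _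
      have e : p + 4 * ((0 : ℕ) : ℝ) = p := by push_cast; ring
      rw [e, sub_self]
      linarith) (by
      rcases Nat.eq_zero_or_pos N with h0 | h0
      · subst h0
        show _ ≤ Eb β p - Eb β (p + 4 * ((0 : ℕ) : ℝ))
        have e : p + 4 * ((0 : ℕ) : ℝ) = p := by push_cast; ring
        rw [e, sub_self]
        push_cast at hT
        linarith
      · have hNR : (0 : ℝ) < N := by exact_mod_cast h0
        have h5 : (0 : ℝ) < 4 * (N : ℝ) := by positivity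
        have h1 := (Eb_diff hβ hp0 h5).1
        refine le_trans ?_ h1
        refine le_trans ?_ (lo4 _ _ (by positivity) (by positivity) (by linarith))
        have h2 : 3 * (4 * (N : ℝ)) * gb β * V = 12 * N * gb β * V := by ring
        rw [h2]
        refine hT.trans ?_
        exact mul_le_mul_of_nonneg_right (mul_le_mul_of_nonneg_left hg1 (by positivity)) hV.le) (by
      intro i hi
      have hi0 : (0 : ℝ) ≤ i := Nat.cast_nonneg i
      have h1 := (Eb_diff hβ (p := p + 4 * i) (by positivity) (s := 4) (by norm_num)).2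
      have e : p + 4 * ((i + 1 : ℕ) : ℝ) = p + 4 * i + 4 := by push_cast; ring
      show (Eb β p - Eb β (p + 4 * ((i + 1 : ℕ) : ℝ))) -
        (Eb β p - Eb β (p + 4 * i)) ≤ _
      rw [e]
      have h2 := up4 (3 * 4 * gb β) (p + 4 * i) (by positivity) (by linarith)
      have h3 : 1.01 * (3 * 4 * gb β) * V ≤ 12.12 * g₂ * V :=
        mul_le_mul_of_nonneg_right (by linarith) hV.le
      linarith)
  exact ⟨i, hi, by linarith, by linarith⟩

/-- The numerical part of the initial phase. -/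
theorem num_all {B : ℕ} {x R Q U V p1 p2 T0 : ℝ} (H : Num x R Q U V) (hx : x = B) (hp : Q ≤ p1)
    (hp2 : p2 = p1 + 28 * x ^ 8) (hpr : p1 + 32 * x ^ 8 ≤ R)
    (hT1 : -(4.7 * (R * U)) ≤ T0) (hT2 : T0 ≤ -(3.9 * (R * U))) :
    ∃ β1 i1 β2 i2 : ℕ, β1 ≤ B ^ 6 ∧ 1 ≤ β1 ∧ i1 ≤ 5 * B ^ 8 ∧ β2 ≤ 2 * B ^ 4 ∧ 1 ≤ β2 ∧
      i2 ≤ B ^ 6 ∧ T0 + Eb β1 (p1 + 4 * i1) ≤ 0 ∧
      x ^ 12 * V ≤ T0 + Eb β1 (p1 + 4 * i1) + Eb β2 (p2 + 4 * i2) ∧
      T0 + Eb β1 (p1 + 4 * i1) + Eb β2 (p2 + 4 * i2) ≤ 851 * x ^ 12 * V := by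
  obtain ⟨β1, hb1, hb1', h1, h2, h3, h4⟩ := num1 H hx hp hpr hT1 hT2
  have hx81 : 0 < x ^ 8 := by
    have := H.x1
    positivity
  have hx0 : 0 < x := by linarith [H.x1]
  obtain ⟨β2, hb2, hb2', h5, h6, h7, h8⟩ := num2 H hx (p := p2) (by linarith) (by linarith) h1 h2
  obtain ⟨x1, xR, Rx, Q0, QR, QR2, U0, V0, UV, a6, a8, a12, a18, a41, up3, up4, lo3, lo4⟩ := H
  clear up3 lo3
  have hp10 : 0 < p1 := by linarith
  have hβ1R : (β1 : ℝ) ≤ x ^ 6 := by rw [hx]; exact_mod_cast hb1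
  have hβ2R : (β2 : ℝ) ≤ 2 * x ^ 4 := by rw [hx]; exact_mod_cast hb2
  have hU8 : 1000000 * U ≤ x ^ 8 * U := mul_le_mul_of_nonneg_right (by linarith) U0.le
  have hR0 : 0 < R := by linarith
  obtain ⟨i1, hi1, h9, h10⟩ := num34 (N := 5 * B ^ 8) (T := T0 + Eb β1 p1 + Eb β2 p2) (L := U)
    (R := R) hb1' V0 up4 lo4 hp10 hp (by push_cast; rw [← hx]; linarith) h4 h3 (by linarith) (by
      push_cast
      rw [← hx]
      have e : 12 * (5 * x ^ 8) * (3.85 * R) * V = 231 * (x ^ 8 * (R * V)) := by ring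
      rw [e, ← UV]
      have : 0 < x ^ 8 * U := by positivity
      linarith) (by positivity)
  have h12V : x ^ 12 * V ≤ 0.001 * U := by
    rw [UV]
    calc x ^ 12 * V ≤ (0.001 * R) * V := mul_le_mul_of_nonneg_right (by linarith) V0.le
      _ = 0.001 * (R * V) := by ring
  have e1 : 12.12 * (4.7 * R) * V = 56.964 * U := by rw [UV]; ring
  rw [e1] at h10
  obtain ⟨i2, hi2, h11, h12⟩ := num34 (N := B ^ 6)
    (T := T0 + Eb β1 p1 + Eb β2 p2 - (Eb β1 p1 - Eb β1 (p1 + 4 * i1))) (L := x ^ 12 * V)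
    (R := R) (p := p2) hb2' V0 up4 lo4 (by linarith) (by linarith)
    (by push_cast; rw [← hx]; linarith) h8 h7 (by linarith) (by
      push_cast
      rw [← hx]
      have e : 12 * x ^ 6 * (15.8 * x ^ 12) * V = 189.6 * x ^ 18 * V := by ring
      rw [e]
      have h13 : 94.8 * R * V ≤ 189.6 * x ^ 18 * V :=
        mul_le_mul_of_nonneg_right (by linarith) V0.le
      have h14 : 94.8 * R * V = 94.8 * U := by rw [UV]; ring
      have h15 : 0 < x ^ 12 * V := by positivity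
      linarith) (by positivity)
  refine ⟨β1, i1, β2, i2, hb1, hb1', hi1, hb2, hb2', hi2, ?_, by linarith, by linarith⟩
  have hmono : Eb β1 (p1 + 4 * i1) ≤ Eb β1 p1 := by
    rcases Nat.eq_zero_or_pos i1 with h0 | h0
    · rw [h0]
      simp
    · have hpos : (0 : ℝ) < 4 * (i1 : ℝ) := by
        have : (0 : ℝ) < i1 := by exact_mod_cast h0
        positivity
      have h1 := (Eb_diff hb1' hp10 hpos).1
      have hg := gb_nonneg (show (1 : ℝ) ≤ β1 by exact_mod_cast hb1')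
      have h2 : 0 ≤ 3 * (4 * (i1 : ℝ)) * gb β1 / (p1 + 4 * i1 + 8 * β1) ^ 4 := by positivity
      linarith
  have : 0 < x ^ 12 * U := by positivity
  linarith

/-- The initial phase. -/
theorem initial {δ r P E B : ℕ} (C : Ctx δ r P E) (hB : 1000 ≤ B) (hBr : B ^ 18 ≤ r)
    (hrB : r ≤ 2 * B ^ 18) (hPr : 100 * (r : ℝ) ^ 4 ≤ 101 * (P : ℝ) ^ 4) {p1 : ℕ} (hp1 : P ≤ p1)
    (hm : p1 % 4 = r % 4) (hr : p1 + 32 * B ^ 8 ≤ r) {T0 : ℝ}
    (hT1 : -(4.7 / (r : ℝ) ^ 2) ≤ T0) (hT2 : T0 ≤ -(3.9 / (r : ℝ) ^ 2)) (h : RR δ r p1 T0) :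
    ∃ T, RR δ r (p1 + 32 * B ^ 8) T ∧ (B : ℝ) ^ 12 / (r : ℝ) ^ 4 ≤ T ∧
      T ≤ 851 * (B : ℝ) ^ 12 / (r : ℝ) ^ 4 := by
  have hP0 := C.P0
  have hr0 := C.r0
  have hBR : (1000 : ℝ) ≤ B := by exact_mod_cast hB
  have H := num_of (x := (B : ℝ)) (R := (r : ℝ)) (Q := (P : ℝ)) hBR (by exact_mod_cast hBr)
    (by exact_mod_cast hrB) hP0 (by exact_mod_cast C.pr) hPr
  have hR2 : ∀ c : ℝ, c / (r : ℝ) ^ 2 = c * (r * (1 / (r : ℝ) ^ 3)) := by
    intro c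
    field_simp
  obtain ⟨p2, hp2⟩ : ∃ p2, p2 = p1 + 28 * B ^ 8 := ⟨_, rfl⟩
  obtain ⟨β1, i1, β2, i2, b1, b1', b2, b3, b3', b4, b5, b6, b7⟩ := num_all (p1 := (p1 : ℝ))
    (p2 := (p2 : ℝ)) (T0 := T0) H rfl (by exact_mod_cast hp1)
    (by rw [hp2]; push_cast; ring) (by exact_mod_cast hr) (by rw [← hR2]; exact hT1)
    (by rw [← hR2]; exact hT2)
  have n6 : B ^ 4 ≤ B ^ 6 := Nat.pow_le_pow_right (by omega) (by norm_num)
  have n8 : 5 * B ^ 6 ≤ B ^ 8 := by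
    have e : B ^ 8 = B * B * B ^ 6 := by ring
    rw [e]
    refine Nat.mul_le_mul_right _ ?_
    exact (by omega : 5 ≤ B).trans (Nat.le_mul_self B)
  have n18 : 4 * B ^ 6 ≤ P := by
    have h1 := H.QR2
    have h2 : (4 * (B : ℝ) ^ 6) ≤ P := by
      linarith [H.a8, H.a12, H.a18, H.xR, pow_nonneg (show (0 : ℝ) ≤ B by linarith) 6]
    exact_mod_cast h2
  have hR1 : (1 : ℝ) ≤ r := by
    linarith [H.a6, H.a8, H.a12, H.a18, H.xR, H.a41]
  have hQ2 : 4.7 / (r : ℝ) ^ 2 ≤ 5 / (P : ℝ) ^ 2 := by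
    have h1 : (1 : ℝ) / (r : ℝ) ^ 2 ≤ 1 / (P : ℝ) ^ 2 := one_div_le_one_div_of_le (by positivity)
      (pow_le_pow_left₀ hP0.le (by exact_mod_cast C.pr) 2)
    have h3 : 0 < 1 / (r : ℝ) ^ 2 := by positivity
    have h4 : 5 / (P : ℝ) ^ 2 = 5 * (1 / (P : ℝ) ^ 2) := by ring
    have h5 : 4.7 / (r : ℝ) ^ 2 = 4.7 * (1 / (r : ℝ) ^ 2) := by ring
    rw [h4, h5]
    linarith
  have hpos39 : 0 < 3.9 / (r : ℝ) ^ 2 := by positivity
  have hT0b : |T0| ≤ 5 / (P : ℝ) ^ 2 := by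
    refine le_trans ?_ hQ2
    rw [abs_le]
    constructor <;> linarith
  have hA1 := RR.to C.hδ C.hP C.sm hp1 hm (q := p1 + 4 * i1) (by omega) (C.tbound' hT0b) h
    (by omega) (by omega)
  have hB1 := RR.stepE C.hδ C.hP C.sm (p := p1 + 4 * i1) (by omega) (by omega) (by omega)
    (C.tbound' hT0b) b1' (by omega) hA1
  have hEpos : 0 ≤ Eb β1 ((p1 : ℝ) + 4 * i1) := by
    have h1 := (Eb_bounds b1' (p := (p1 : ℝ) + 4 * i1) (by
      have : (0 : ℝ) < p1 := by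
        have : (P : ℝ) ≤ p1 := by exact_mod_cast hp1
        linarith
      positivity)).1
    refine le_trans ?_ h1
    have hg := gb_nonneg (show (1 : ℝ) ≤ β1 by exact_mod_cast b1')
    positivity
  have ecast1 : ((p1 + 4 * i1 : ℕ) : ℝ) = (p1 : ℝ) + 4 * i1 := by push_cast; ring
  rw [ecast1] at hB1
  have hT1b : |T0 + Eb β1 ((p1 : ℝ) + 4 * i1)| ≤ 5 / (P : ℝ) ^ 2 := by
    refine le_trans ?_ hQ2
    rw [abs_le]
    constructor <;> linarith
  have hA2 := RR.to C.hδ C.hP C.sm (p := p1 + 4 * i1 + 8 * β1) (by omega) (by omega)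
    (q := p2 + 4 * i2) (by omega) (C.tbound' hT1b) hB1 (by omega) (by omega)
  have hB2 := RR.stepE C.hδ C.hP C.sm (p := p2 + 4 * i2) (by omega) (by omega) (by omega)
    (C.tbound' hT1b) b3' (by omega) hA2
  have ecast2 : ((p2 + 4 * i2 : ℕ) : ℝ) = (p2 : ℝ) + 4 * i2 := by push_cast; ring
  rw [ecast2] at hB2
  obtain ⟨T4, hT4⟩ : ∃ T4, T4 = T0 + Eb β1 ((p1 : ℝ) + 4 * i1) + Eb β2 ((p2 : ℝ) + 4 * i2) :=
    ⟨_, rfl⟩
  rw [← hT4] at hB2 b6 b7
  have hV0 : 0 < (B : ℝ) ^ 12 * (1 / (r : ℝ) ^ 4) := by positivity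
  have hT4b : |T4| ≤ 5 / (P : ℝ) ^ 2 := by
    refine le_trans ?_ hQ2
    rw [abs_of_pos (by linarith)]
    refine b7.trans ?_
    have h1 : 851 * (B : ℝ) ^ 12 ≤ r := by
      linarith [H.a18, H.xR, pow_nonneg (show (0 : ℝ) ≤ B by linarith) 12]
    calc 851 * (B : ℝ) ^ 12 * (1 / (r : ℝ) ^ 4) ≤ r * (1 / (r : ℝ) ^ 4) :=
          mul_le_mul_of_nonneg_right h1 (by positivity)
      _ = 1 / (r : ℝ) ^ 2 * (1 / r) := by field_simp
      _ ≤ 1 / (r : ℝ) ^ 2 * 1 := mul_le_mul_of_nonneg_left (by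
          rw [div_le_one hr0]
          exact hR1) (by positivity)
      _ ≤ 4.7 / (r : ℝ) ^ 2 := by
          rw [mul_one]
          exact div_le_div_of_nonneg_right (by norm_num) (by positivity)
  have hC := RR.to C.hδ C.hP C.sm (p := p2 + 4 * i2 + 8 * β2) (by omega) (by omega)
    (q := p1 + 32 * B ^ 8) (by omega) (C.tbound' hT4b) hB2 (by omega) hr
  refine ⟨T4, hC, ?_, ?_⟩
  · rw [div_eq_mul_one_div]
    exact b6
  · rw [div_eq_mul_one_div]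
    exact b7

end Pool.Agent.H932R4
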