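import Mathlib
import Pool.Agent.H932R4.Initial
import Pool.Agent.H932R3.Close

set_option autoImplicit false

/-!
# Reachable slopes very close to an integer, started close to it
-/

namespace Pool.Agent.H932R4

open Pool.Agent.H932R3

/-- The starting state. -/
theorem start {δ r : ℕ} (C : ∃ E, Ctx δ r (δ * δ) E) (hpar : δ % 2 = r % 2)
    (hr : δ * δ + 20 ≤ r) (h1000 : 1000 ≤ δ * δ)
    (hPr : 100 * (r : ℝ) ^ 4 ≤ 101 * ((δ * δ : ℕ) : ℝ) ^ 4) :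
    ∃ p1 T0, δ * δ ≤ p1 ∧ p1 ≤ δ * δ + 10 ∧ p1 % 4 = r % 4 ∧ RR δ r p1 T0 ∧
      -(4.7 / (r : ℝ) ^ 2) ≤ T0 ∧ T0 ≤ -(3.9 / (r : ℝ) ^ 2) := by
  obtain ⟨E, C⟩ := C
  obtain ⟨X, hX⟩ : ∃ X : ℝ, X = ((δ * δ : ℕ) : ℝ) := ⟨_, rfl⟩
  have hX2 : X = (δ : ℝ) ^ 2 := by rw [hX]; push_cast; ring
  have hX1000 : 1000 ≤ X := by rw [hX]; exact_mod_cast h1000
  have hX0 : 0 < X := by linarith
  have hr0 : (0 : ℝ) < r := C.r0
  have hXr : X ≤ r := by rw [hX]; exact_mod_cast C.pr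
  rw [← hX] at hPr
  have hsq : 100 * (r : ℝ) ^ 2 ≤ 101 * X ^ 2 := by
    by_contra hcon
    have h1 : 101 * X ^ 2 < 100 * (r : ℝ) ^ 2 := not_le.1 hcon
    have h2 : (101 * X ^ 2) * X ^ 2 ≤ (100 * (r : ℝ) ^ 2) * X ^ 2 :=
      mul_le_mul_of_nonneg_right h1.le (by positivity)
    have h3 : X ^ 2 * (100 * (r : ℝ) ^ 2) < (100 * (r : ℝ) ^ 2) * r ^ 2 := by
      rw [mul_comm]
      refine mul_lt_mul_of_pos_left ?_ (by positivity)
      nlinarith
    nlinarith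
  have main : ∀ p0 : ℕ, δ * δ ≤ p0 → p0 ≤ δ * δ + 2 → p0 % 4 = r % 4 → ∀ η : ℝ, 0 ≤ η →
      η ≤ 1 / (2 * X ^ 2) → RR δ r p0 (gam p0 - gam r - η) →
      ∃ p1 T0, δ * δ ≤ p1 ∧ p1 ≤ δ * δ + 10 ∧ p1 % 4 = r % 4 ∧ RR δ r p1 T0 ∧
      -(4.7 / (r : ℝ) ^ 2) ≤ T0 ∧ T0 ≤ -(3.9 / (r : ℝ) ^ 2) := by
    intro p0 hp0 hp0' hmod η hη0 hη1 hRR
    obtain ⟨hg1, hg2⟩ := gam_le (p := p0) (by omega) ((r - p0) / 4)
    have hrr : p0 + 4 * ((r - p0) / 4) = r := by omega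
    rw [hrr] at hg1 hg2
    have hrr' : (p0 : ℝ) + 4 * (((r - p0) / 4 : ℕ) : ℝ) = r := by exact_mod_cast hrr
    rw [hrr'] at hg2
    have hp0R : X ≤ p0 := by rw [hX]; exact_mod_cast hp0
    have hp0R' : (p0 : ℝ) ≤ X + 2 := by rw [hX]; exact_mod_cast hp0'
    have hrR : X + 20 ≤ r := by rw [hX]; exact_mod_cast hr
    have e1 : 1 / X ^ 2 ≤ 1.01 * (1 / (r : ℝ) ^ 2) := by
      rw [mul_one_div, div_le_div_iff₀ (by positivity) (by positivity)]
      linarith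
    have hW : 0 < 1 / (r : ℝ) ^ 2 := by positivity
    have hgap : gam p0 - gam r ≤ 0.05 * (1 / (r : ℝ) ^ 2) := by
      refine hg2.trans ?_
      have h1 : 1 / (4 * ((p0 : ℝ) - 2) ^ 2) ≤ 0.2585 * (1 / (r : ℝ) ^ 2) := by
        rw [mul_one_div, div_le_div_iff₀ (by nlinarith) (by positivity)]
        have h2 : 0.998 * X ≤ (p0 : ℝ) - 2 := by linarith
        have h3 : (0.998 * X) ^ 2 ≤ ((p0 : ℝ) - 2) ^ 2 := pow_le_pow_left₀ (by positivity) h2 2
        nlinarith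
      have h2 : 0.25 * (1 / (r : ℝ) ^ 2) ≤ 1 / (4 * ((r : ℝ) - 2) ^ 2) := by
        rw [mul_one_div, div_le_div_iff₀ (by positivity) (by nlinarith)]
        nlinarith
      linarith
    have hRR' := RR.stepA C.hδ C.hP C.sm hp0 (by omega) hmod (T := gam p0 - gam r - η) (by
      refine C.tbound' ?_
      rw [← hX, abs_le]
      have h1 : 5 / X ^ 2 = 5 * (1 / X ^ 2) := by ring
      have h2 : 1 / (r : ℝ) ^ 2 ≤ 1 / X ^ 2 := one_div_le_one_div_of_le (by positivity)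
        (pow_le_pow_left₀ hX0.le hXr 2)
      have h3 : 1 / (2 * X ^ 2) = 0.5 * (1 / X ^ 2) := by
        field_simp
        norm_num
      rw [h3] at hη1
      rw [h1]
      constructor <;> linarith) hRR
    refine ⟨p0 + 8, _, by omega, by omega, by omega, hRR', ?_, ?_⟩
    · have h1 := (Gk_bounds 0 (y := (p0 : ℝ) + 3) (by positivity)).2
      have h2 : ck 0 = 4 := by
        unfold ck
        norm_num [shQ]
      rw [h2] at h1
      have h3 : 4 / ((p0 : ℝ) + 3) ^ (0 + 2) ≤ 4 * (1 / X ^ 2) := by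
        rw [mul_one_div]
        exact div_le_div_of_nonneg_left (by norm_num) (by positivity)
          (pow_le_pow_left₀ hX0.le (by linarith) 2)
      have h4 : 1 / (2 * X ^ 2) = 0.5 * (1 / X ^ 2) := by
        field_simp
        norm_num
      rw [h4] at hη1
      have h5 : 4.7 / (r : ℝ) ^ 2 = 4.7 * (1 / (r : ℝ) ^ 2) := by ring
      rw [h5]
      linarith
    · have h1 := (Gk_bounds 0 (y := (p0 : ℝ) + 3) (by positivity)).1
      have h2 : ck 0 = 4 := by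
        unfold ck
        norm_num [shQ]
      rw [h2] at h1
      have h3 : 4 * (1 / (r : ℝ) ^ 2) ≤ 4 / ((p0 : ℝ) + 3 + shS 0) ^ (0 + 2) := by
        rw [mul_one_div]
        refine div_le_div_of_nonneg_left (by norm_num) (by positivity)
          (pow_le_pow_left₀ (by positivity) ?_ 2)
        have : ((shS 0 : ℕ) : ℝ) = 4 := by norm_num [shS]
        rw [this]
        linarith
      have h5 : 3.9 / (r : ℝ) ^ 2 = 3.9 * (1 / (r : ℝ) ^ 2) := by ring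
      rw [h5]
      linarith
  have hδmod : δ * δ % 4 = (δ % 2) := by
    rcases Nat.even_or_odd' δ with ⟨c, rfl | rfl⟩
    · have : 2 * c * (2 * c) = 4 * (c * c) := by ring
      omega
    · have : (2 * c + 1) * (2 * c + 1) = 4 * (c * c + c) + 1 := by ring
      omega
  have hbase : Reach δ X := by rw [hX2]; exact Reach.base
  by_cases hc : (δ * δ) % 4 = r % 4
  · refine main (δ * δ) le_rfl (by omega) hc 0 le_rfl (by positivity) ⟨X, hbase, ?_⟩
    unfold gam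
    rw [← hX]
    ring
  · refine main (δ * δ + 2) (by omega) le_rfl (by omega)
      (Real.log (1 + 1 / (X * (X + 2))) / 2) ?_ ?_ ?_
    · have : 0 ≤ Real.log (1 + 1 / (X * (X + 2))) := Real.log_nonneg (by
        have : 0 < 1 / (X * (X + 2)) := by positivity
        linarith)
      linarith
    · have h1 := Real.log_le_sub_one_of_pos (show 0 < 1 + 1 / (X * (X + 2)) by positivity)
      have h2 : 1 / (X * (X + 2)) ≤ 1 / X ^ 2 := one_div_le_one_div_of_le (by positivity) (by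
        nlinarith)
      have h4 : 1 / (2 * X ^ 2) = 0.5 * (1 / X ^ 2) := by
        field_simp
        norm_num
      rw [h4]
      linarith
    · have h2 := Reach.step X (δ * δ + 1) hbase (by push_cast at hX ⊢; rw [hX]; linarith)
      have e1 : ((δ * δ + 1 : ℕ) : ℝ) = X + 1 := by rw [hX]; push_cast; ring
      have e2 : ((δ * δ + 2 : ℕ) : ℝ) = X + 2 := by rw [hX]; push_cast; ring
      rw [e1] at h2
      refine ⟨_, h2, ?_⟩
      have hg : gam (δ * δ + 2) = bet (δ * δ + 2) - Real.log (X + 2) / 2 := by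
        unfold gam
        rw [e2]
      have h3 : 1 + 1 / (X * (X + 2)) = (X + 1) ^ 2 / (X * (X + 2)) := by
        field_simp
        ring
      rw [hg, h3, Real.log_div (by positivity) (by positivity), Real.log_div (by positivity)
        (by positivity), Real.log_pow, Real.log_mul (by positivity) (by positivity)]
      push_cast
      ring

/-- The context. -/
theorem ctx_of {δ r E : ℕ} (hδδ : δ * δ ≤ r) (ha : (r - δ * δ) ^ 2 ≤ 81 * r)
    (hr : 2000000000 + (18 * E) ^ 2 + 4096 * (E + 3) ≤ r) :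
    Ctx δ r (δ * δ) E ∧ 100 * (r : ℝ) ^ 4 ≤ 101 * ((δ * δ : ℕ) : ℝ) ^ 4 ∧
      (r : ℝ) ≤ 2 * ((δ * δ : ℕ) : ℝ) := by
  obtain ⟨s, hs⟩ : ∃ s, s = Real.sqrt r := ⟨_, rfl⟩
  have hrR : (2000000000 : ℝ) + (18 * E) ^ 2 + 4096 * (E + 3) ≤ r := by exact_mod_cast hr
  have hE0 : (0 : ℝ) ≤ E := Nat.cast_nonneg E
  have hr0 : (0 : ℝ) < r := by
    have : 0 ≤ (18 * (E : ℝ)) ^ 2 := by positivity
    linarith
  have hss : s * s = r := by rw [hs]; exact Real.mul_self_sqrt hr0.le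
  have hs0 : 0 < s := by rw [hs]; exact Real.sqrt_pos.2 hr0
  have hs1 : 18 * (E : ℝ) ≤ s := by
    rw [hs]
    apply Real.le_sqrt_of_sq_le
    linarith
  have hr8 : (2000000000 : ℝ) ≤ r := by
    have : 0 ≤ (18 * (E : ℝ)) ^ 2 := by positivity
    linarith
  have hs2 : 40000 ≤ s := by
    rw [hs]
    apply Real.le_sqrt_of_sq_le
    have h : (40000 : ℝ) ^ 2 = 1600000000 := by norm_num
    rw [h]
    linarith
  obtain ⟨X, hX⟩ : ∃ X : ℝ, X = ((δ * δ : ℕ) : ℝ) := ⟨_, rfl⟩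
  have hXr : X ≤ r := by rw [hX]; exact_mod_cast hδδ
  have hXl : r - 9 * s ≤ X := by
    have h1 : ((r - δ * δ : ℕ) : ℝ) ^ 2 ≤ 81 * r := by exact_mod_cast ha
    rw [Nat.cast_sub hδδ, ← hX] at h1
    have h2 : (r : ℝ) - X ≤ 9 * s := by
      refine abs_le_of_sq_le_sq' ?_ (by positivity) |>.2
      calc ((r : ℝ) - X) ^ 2 ≤ 81 * r := h1
        _ = (9 * s) ^ 2 := by rw [← hss]; ring
    linarith
  have hX0 : 0 < X := by nlinarith
  have hratio : 1 - 9 / s ≤ X / r := by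
    rw [le_div_iff₀ hr0]
    have : (1 - 9 / s) * r = r - 9 * s := by
      rw [← hss]
      field_simp
    linarith
  have h9s : 9 / s ≤ 1 := by
    rw [div_le_one hs0]
    linarith
  have hpow : ∀ e : ℕ, (1 - e * (9 / s)) * (r : ℝ) ^ e ≤ X ^ e := by
    intro e
    have h1 := one_add_mul_le_pow (show -2 ≤ -(9 / s) by linarith) e
    have h2 : (1 + -(9 / s)) ^ e ≤ (X / r) ^ e := pow_le_pow_left₀ (by linarith) (by linarith) e
    rw [div_pow] at h2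
    have h3 : 1 + (e : ℝ) * -(9 / s) ≤ X ^ e / (r : ℝ) ^ e := h1.trans h2
    rw [le_div_iff₀ (by positivity)] at h3
    calc (1 - e * (9 / s)) * (r : ℝ) ^ e = (1 + (e : ℝ) * -(9 / s)) * (r : ℝ) ^ e := by ring
      _ ≤ X ^ e := h3
  have hhalf : (r : ℝ) ≤ 2 * X := by nlinarith
  have hX15 : 15 ≤ δ * δ := by
    have : (15 : ℝ) ≤ X := by nlinarith
    rw [hX] at this
    exact_mod_cast this
  refine ⟨⟨?_, hX15, ?_, hδδ, ?_, ?_⟩, ?_, by rw [← hX]; exact hhalf⟩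
  · by_contra h
    have : δ = 0 := by omega
    subst this
    omega
  · intro p hp hpr hmod
    obtain ⟨hg1, hg2⟩ := gam_le (p := p) (by omega) ((r - p) / 4)
    have hrr : p + 4 * ((r - p) / 4) = r := by omega
    rw [hrr] at hg1 hg2
    rw [abs_of_nonneg hg1]
    refine hg2.trans ?_
    have hpP : X ≤ p := by rw [hX]; exact_mod_cast hp
    have h1 : 0 ≤ 1 / (4 * ((p : ℝ) + 4 * (((r - p) / 4 : ℕ) : ℝ) - 2) ^ 2) := by positivity
    have h2 : 1 / (4 * ((p : ℝ) - 2) ^ 2) ≤ 1 / (32 * (r : ℝ)) := by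
      refine div_le_div_of_nonneg_left (by norm_num) (by positivity) ?_
      have h3 : ((r : ℝ) / 4) ^ 2 ≤ ((p : ℝ) - 2) ^ 2 :=
        pow_le_pow_left₀ (by linarith) (by linarith) 2
      nlinarith
    linarith
  · intro e he
    rw [← hX]
    have h1 := hpow e
    have h2 : (e : ℝ) ≤ E := by exact_mod_cast he
    have h3 : (e : ℝ) * (9 / s) ≤ 1 / 2 := by
      rw [← mul_div_assoc, div_le_iff₀ hs0]
      linarith
    have h4 : 0 < (r : ℝ) ^ e := by positivity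
    nlinarith
  · rw [← hX, div_le_div_iff₀ (by positivity) (by positivity), one_mul]
    have h1 : (r / 2 : ℝ) ^ 2 ≤ X ^ 2 := pow_le_pow_left₀ (by positivity) (by linarith) 2
    have h2 : 4096 * ((E : ℝ) + 3) ≤ r := by
      have : 0 ≤ (18 * (E : ℝ)) ^ 2 := by positivity
      linarith
    have h3 : (5 + 4 * ((E : ℝ) + 1)) * 128 ≤ r := by linarith
    have h4 : (5 + 4 * ((E : ℝ) + 1)) * 128 * r ≤ r * r := mul_le_mul_of_nonneg_right h3 hr0.le
    linarith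
  · rw [← hX]
    have h1 := hpow 4
    have h3 : ((4 : ℕ) : ℝ) * (9 / s) ≤ 1 / 101 := by
      rw [← mul_div_assoc, div_le_iff₀ hs0]
      push_cast
      linarith
    have h4 : 0 < (r : ℝ) ^ 4 := by positivity
    nlinarith

theorem exists_root (r : ℕ) : ∃ B : ℕ, B ^ 18 ≤ r ∧ r < (B + 1) ^ 18 := by
  obtain ⟨B, hB⟩ : ∃ B, B = Nat.findGreatest (fun b => b ^ 18 ≤ r) r := ⟨_, rfl⟩
  have h1 : B ^ 18 ≤ r := by
    rw [hB]
    exact Nat.findGreatest_spec (P := fun b => b ^ 18 ≤ r) (Nat.zero_le r) (by simp)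
  refine ⟨B, h1, ?_⟩
  by_contra hcon
  have h2 : (B + 1) ^ 18 ≤ r := not_lt.1 hcon
  have h3 : B + 1 ≤ r := by
    calc B + 1 = (B + 1) ^ 1 := (pow_one _).symm
      _ ≤ (B + 1) ^ 18 := Nat.pow_le_pow_right (by omega) (by norm_num)
      _ ≤ r := h2
  have h4 := Nat.le_findGreatest (P := fun b => b ^ 18 ≤ r) h3 h2
  rw [← hB] at h4
  omega

/-- The first list stage. -/
theorem second {δ r P E B : ℕ} (C : Ctx δ r P E) (hE : 2 ≤ E) (hB : 1000 ≤ B) (hBr : B ^ 18 ≤ r)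
    (hPr : 100 * (r : ℝ) ^ 4 ≤ 101 * (P : ℝ) ^ 4) (hhalf : (r : ℝ) ≤ 2 * P) {p q : ℕ} (hp : P ≤ p)
    (hm : p % 4 = r % 4) (hmq : q % 4 = r % 4) (hpq : p + 16 * B ^ 8 ≤ q) (hq : q ≤ r)
    {T : ℝ} (hT1 : (B : ℝ) ^ 12 / (r : ℝ) ^ 4 ≤ T)
    (hT2 : T ≤ 851 * (B : ℝ) ^ 12 / (r : ℝ) ^ 4) (h : RR δ r p T) :
    St δ r P ((4 * B ^ 4 + 2) :: CL 0) q := by
  have hP0 := C.P0
  have hr0 := C.r0
  have hB4 : B ≤ B ^ 4 := by
    calc B = B ^ 1 := (pow_one _).symm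
      _ ≤ B ^ 4 := Nat.pow_le_pow_right (by omega) (by norm_num)
  have hB48 : 20 * B ^ 4 ≤ B ^ 8 := by
    have e : B ^ 8 = B ^ 4 * B ^ 4 := by ring
    rw [e]
    exact Nat.mul_le_mul_right _ (by omega)
  have hB18 : B ^ 8 ≤ B ^ 18 := Nat.pow_le_pow_right (by omega) (by norm_num)
  have hPR : (P : ℝ) ≤ r := by exact_mod_cast C.pr
  have hnL : nL ((4 * B ^ 4 + 2) :: CL 0) = 24 * (4 * B ^ 4 + 2) := by
    rw [nL_cons]
    simp [CL, Nat.factorial]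
    ring
  have hlen : ((4 * B ^ 4 + 2) :: CL 0).length = 1 := rfl
  have hsum : ((4 * B ^ 4 + 2) :: CL 0).sum = 4 * B ^ 4 + 2 := by simp [CL]
  have hadm : Adm ((4 * B ^ 4 + 2) :: CL 0) := by
    refine ⟨by omega, ?_, trivial⟩
    have : (CL 0).sum = 0 := rfl
    omega
  obtain ⟨x, hx⟩ : ∃ x : ℝ, x = B := ⟨_, rfl⟩
  have hnLR : ((nL ((4 * B ^ 4 + 2) :: CL 0) : ℕ) : ℝ) = 24 * (4 * x ^ 4 + 2) := by
    rw [hnL, hx]
    push_cast
    ring
  have hxB : 1000 ≤ x := by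
    rw [hx]
    exact_mod_cast hB
  have hx18 : x ^ 18 ≤ r := by rw [hx]; exact_mod_cast hBr
  rw [← hx] at hT1 hT2
  have hx0 : 0 < x := by linarith
  have hx4 : 1000000 ≤ x ^ 4 := by
    have e : x ^ 4 = x ^ 2 * x ^ 2 := by ring
    have h2 : 1000 * 1000 ≤ x ^ 2 := by
      rw [pow_two]
      exact mul_le_mul hxB hxB (by norm_num) hx0.le
    have h1 : 1 ≤ x ^ 2 := by linarith
    rw [e]
    calc (1000000 : ℝ) = 1 * (1000 * 1000) := by norm_num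
      _ ≤ x ^ 2 * x ^ 2 := mul_le_mul h1 h2 (by norm_num) (by positivity)
  have hx14 : 1000000 ≤ x ^ 14 := hx4.trans (pow_le_pow_right₀ (by linarith) (by norm_num))
  have hx6 : 1 ≤ x ^ 6 := one_le_pow₀ (by linarith)
  have h418 : 1000000 * x ^ 4 ≤ r := by
    calc 1000000 * x ^ 4 ≤ x ^ 14 * x ^ 4 := mul_le_mul_of_nonneg_right hx14 (by positivity)
      _ = x ^ 18 := by ring
      _ ≤ r := hx18
  have hr1 : (1 : ℝ) ≤ r := by linarith
  have h1218 : 851 * x ^ 12 ≤ r := by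
    have h1 : 851 ≤ x ^ 6 := by
      calc (851 : ℝ) ≤ x ^ 4 := by linarith
        _ ≤ x ^ 6 := pow_le_pow_right₀ (by linarith) (by norm_num)
    calc 851 * x ^ 12 ≤ x ^ 6 * x ^ 12 := mul_le_mul_of_nonneg_right h1 (by positivity)
      _ = x ^ 18 := by ring
      _ ≤ r := hx18
  have hsm : 851 * x ^ 12 / (r : ℝ) ^ 4 ≤ 5 / (P : ℝ) ^ 2 := by
    have h1 : 851 * x ^ 12 ≤ (r : ℝ) ^ 2 := by
      calc 851 * x ^ 12 ≤ r := h1218
        _ = 1 * r := (one_mul _).symm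
        _ ≤ r * r := mul_le_mul_of_nonneg_right hr1 hr0.le
        _ = (r : ℝ) ^ 2 := by ring
    calc 851 * x ^ 12 / (r : ℝ) ^ 4 ≤ (r : ℝ) ^ 2 / (r : ℝ) ^ 4 :=
          div_le_div_of_nonneg_right h1 (by positivity)
      _ = 1 / (r : ℝ) ^ 2 := by field_simp
      _ ≤ 1 / (P : ℝ) ^ 2 := one_div_le_one_div_of_le (by positivity)
          (pow_le_pow_left₀ hP0.le hPR 2)
      _ ≤ 5 / (P : ℝ) ^ 2 := div_le_div_of_nonneg_right (by norm_num) (by positivity)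
  refine ⟨?_, ?_⟩
  · unfold qL
    rw [hnLR, hlen, mul_div_assoc', div_le_div_iff₀ (by positivity) (by positivity)]
    have h1 : 2 * (4 * (24 * (4 * x ^ 4 + 2))) ≤ 5 * (P : ℝ) ^ 2 := by
      have h2 : (r : ℝ) / 2 ≤ P := by linarith
      have h3 : (r / 2 : ℝ) ^ 2 ≤ (P : ℝ) ^ 2 := pow_le_pow_left₀ (by positivity) h2 2
      have h9 : (r / 2 : ℝ) ^ 2 = r / 4 * r := by ring
      have h10 : 250 * (r : ℝ) ≤ r / 4 * r := mul_le_mul_of_nonneg_right (by linarith) hr0.le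
      linarith
    calc 2 * (4 * (24 * (4 * x ^ 4 + 2))) * (P : ℝ) ^ 2
        ≤ 5 * (P : ℝ) ^ 2 * (P : ℝ) ^ 2 := mul_le_mul_of_nonneg_right h1 (sq_nonneg _)
      _ = 5 * (P : ℝ) ^ (1 + 3) := by ring
  · refine stageL C (s0 := 8 * B ^ 4 + 2) (I := 3 * B ^ 8) hadm (by rw [hlen]; omega)
      (by omega) (by rw [hsum]; omega) hp hm hmq (by rw [hsum]; omega) hq
      (A := x ^ 12 / (r : ℝ) ^ 4) (B := 851 * x ^ 12 / (r : ℝ) ^ 4) ?_ ?_ hsm hT1 hT2 h
    · rw [hnLR, hlen]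
      have e : (1 : ℕ) + 3 = 4 := rfl
      rw [e, div_le_div_iff₀ (by positivity) (by positivity)]
      push_cast
      rw [← hx]
      have h1 : 24 * (4 * x ^ 4 + 2) * (8 * x ^ 4 + 2 + 8) ≤ 0.9 * x ^ 12 := by
        have h2 : 24 * (4 * x ^ 4 + 2) * (8 * x ^ 4 + 2 + 8) ≤
            24 * (5 * x ^ 4) * (9 * x ^ 4) := by
          refine mul_le_mul (by linarith) (by linarith) (by positivity) (by positivity)
        have h3 : 24 * (5 * x ^ 4) * (9 * x ^ 4) = 1080 * x ^ 8 := by ring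
        have h4 : x ^ 12 = x ^ 4 * x ^ 8 := by ring
        have h7 : 1000000 * x ^ 8 ≤ x ^ 4 * x ^ 8 :=
          mul_le_mul_of_nonneg_right hx4 (by positivity)
        have h8 : 0 < x ^ 8 := by positivity
        rw [h4]
        linarith
      have h2 : (0 : ℝ) < (r : ℝ) ^ 4 := by positivity
      calc 24 * (4 * x ^ 4 + 2) * (8 * x ^ 4 + 2 + 8) * (r : ℝ) ^ 4
          ≤ 0.9 * x ^ 12 * (r : ℝ) ^ 4 := mul_le_mul_of_nonneg_right h1 h2.le
        _ ≤ x ^ 12 * (P : ℝ) ^ 4 := by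
            have h3 : 0 < x ^ 12 := by positivity
            have h4 : 0.9 * (r : ℝ) ^ 4 ≤ (P : ℝ) ^ 4 := by linarith
            calc 0.9 * x ^ 12 * (r : ℝ) ^ 4 = x ^ 12 * (0.9 * (r : ℝ) ^ 4) := by ring
              _ ≤ _ := mul_le_mul_of_nonneg_left h4 h3.le
    · rw [hnLR, hlen]
      have e : (1 : ℕ) + 3 = 4 := rfl
      rw [e]
      refine div_le_div_of_nonneg_right ?_ (by positivity)
      push_cast
      rw [← hx]
      calc 851 * x ^ 12 ≤ 1152 * x ^ 12 := by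
            have : 0 < x ^ 12 := by positivity
            linarith
        _ = 24 * (4 * x ^ 4) * (4 * (3 * x ^ 8)) := by ring
        _ ≤ 24 * (4 * x ^ 4 + 2) * (8 * x ^ 4 + 2 + 4 * (3 * x ^ 8)) :=
            mul_le_mul (by linarith) (by
              have : 0 < x ^ 4 := by positivity
              linarith) (by positivity) (by positivity)

/-- The end of the correction. -/
theorem finish {δ r P E K : ℕ} (C : Ctx δ r P E) (hhalf : (r : ℝ) ≤ 2 * P)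
    (hZ : 8 * nL (CL (K + 1)) * 2 ^ (K + 4) ≤ r) (hr2 : 2 ≤ r) {p : ℕ} (hp : P ≤ p) (hpr : p ≤ r)
    (hm : p % 4 = r % 4) (h : St δ r P (CL (K + 1)) p) :
    ∃ σ, Reach δ σ ∧ 0 < (r : ℝ) - σ ∧ (r : ℝ) - σ ≤ 1 / (r : ℝ) ^ K := by
  have hP0 := C.P0
  have hr0 := C.r0
  obtain ⟨hq5, T, hT, hTl, hTu⟩ := h
  have hqpos : 0 < qL P (CL (K + 1)) := by
    unfold qL
    have : (0 : ℝ) < nL (CL (K + 1)) := by exact_mod_cast nL_pos (CL_adm (K + 1))
    positivity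
  have hT0 : 0 < T := by linarith
  have hT5 : |T| ≤ 5 / (P : ℝ) ^ 2 := by
    rw [abs_of_pos hT0]
    linarith
  obtain ⟨σ, hσ, hlog⟩ := RR.to C.hδ C.hP C.sm (p := p) hp hm (q := r) rfl (C.tbound' hT5) hT hpr
    le_rfl
  have hlog' : Real.log σ = Real.log r - 2 * T := by
    rw [hlog]
    unfold gam
    ring
  have hσ0 : 0 < σ := hσ.pos C.hδ
  have hσe : σ = r * Real.exp (-(2 * T)) := by
    rw [← Real.exp_log hσ0, hlog', sub_eq_add_neg, Real.exp_add, Real.exp_log hr0]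
  have hexp1 : Real.exp (-(2 * T)) < 1 := by
    rw [Real.exp_lt_one_iff]
    linarith
  have hexp2 : 1 - 2 * T ≤ Real.exp (-(2 * T)) := by
    have := Real.add_one_le_exp (-(2 * T))
    linarith
  refine ⟨σ, hσ, ?_, ?_⟩
  · rw [hσe]
    have : (r : ℝ) * Real.exp (-(2 * T)) < r * 1 := mul_lt_mul_of_pos_left hexp1 hr0
    linarith
  · have h1 : (r : ℝ) - σ ≤ 2 * r * T := by
      rw [hσe]
      have : (r : ℝ) * (1 - 2 * T) ≤ r * Real.exp (-(2 * T)) :=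
        mul_le_mul_of_nonneg_left hexp2 hr0.le
      linarith
    refine h1.trans ?_
    obtain ⟨Z, hZe⟩ : ∃ Z, Z = 8 * nL (CL (K + 1)) * 2 ^ (K + 4) := ⟨_, rfl⟩
    rw [← hZe] at hZ
    have h2 : T ≤ (Z : ℝ) / (r : ℝ) ^ (K + 4) := by
      refine hTu.trans ?_
      unfold qL
      rw [CL_length]
      have h3 : (r : ℝ) ^ (K + 4) ≤ 2 ^ (K + 4) * (P : ℝ) ^ (K + 4) := by
        rw [← mul_pow]
        exact pow_le_pow_left₀ hr0.le hhalf _
      have e : K + 1 + 3 = K + 4 := rfl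
      rw [e, mul_div_assoc', div_le_div_iff₀ (by positivity) (by positivity), hZe]
      push_cast
      calc 2 * (4 * (nL (CL (K + 1)) : ℝ)) * (r : ℝ) ^ (K + 4)
          ≤ 2 * (4 * (nL (CL (K + 1)) : ℝ)) * (2 ^ (K + 4) * (P : ℝ) ^ (K + 4)) :=
            mul_le_mul_of_nonneg_left h3 (by positivity)
        _ = 8 * (nL (CL (K + 1)) : ℝ) * 2 ^ (K + 4) * (P : ℝ) ^ (K + 4) := by ring
    have hZr : (Z : ℝ) ≤ r := by exact_mod_cast hZ
    have hr2' : (2 : ℝ) ≤ r := by exact_mod_cast hr2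
    calc 2 * r * T ≤ 2 * r * ((Z : ℝ) / (r : ℝ) ^ (K + 4)) :=
          mul_le_mul_of_nonneg_left h2 (by positivity)
      _ ≤ r * r * (r / (r : ℝ) ^ (K + 4)) := by
          refine mul_le_mul ?_ (div_le_div_of_nonneg_right hZr (by positivity)) (by positivity)
            (by positivity)
          exact mul_le_mul_of_nonneg_right hr2' hr0.le
      _ = 1 / (r : ℝ) ^ (K + 1) := by
          rw [pow_add (r : ℝ) K 4, pow_add (r : ℝ) K 1]
          field_simp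
      _ ≤ 1 / (r : ℝ) ^ K := one_div_le_one_div_of_le (by positivity)
          (pow_le_pow_right₀ (by linarith) (by omega))

theorem root_double {B : ℕ} (hB : 36 ≤ B) : (B + 1) ^ 18 ≤ 2 * B ^ 18 := by
  have h1 : ((B : ℝ) + 1) ^ 18 ≤ 2 * (B : ℝ) ^ 18 := by
    have hB36 : (36 : ℝ) ≤ B := by exact_mod_cast hB
    have h2 := one_add_mul_le_pow (show -2 ≤ -(1 / ((B : ℝ) + 1)) by
      have : 1 / ((B : ℝ) + 1) ≤ 1 := by
        rw [div_le_one (by positivity)]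
        linarith
      linarith) 18
    have h3 : 1 + -(1 / ((B : ℝ) + 1)) = B / (B + 1) := by field_simp; ring
    rw [h3, div_pow] at h2
    have h4 : (1 : ℝ) / 2 ≤ (B : ℝ) ^ 18 / ((B : ℝ) + 1) ^ 18 := by
      refine le_trans ?_ h2
      have : ((18 : ℕ) : ℝ) * -(1 / ((B : ℝ) + 1)) = -(18 / ((B : ℝ) + 1)) := by
        push_cast
        ring
      rw [this]
      have : 18 / ((B : ℝ) + 1) ≤ 1 / 2 := by
        rw [div_le_div_iff₀ (by positivity) (by norm_num)]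
        linarith
      linarith
    rw [div_le_div_iff₀ (by norm_num) (by positivity)] at h4
    linarith
  exact_mod_cast h1

theorem gap_bound {B Cc r a : ℕ} (hB1 : B ^ 18 ≤ r) (hC : Cc ^ 10 ≤ B) (hb : r ^ 9 ≤ a ^ 20) :
    Cc * B ^ 8 ≤ a := by
  by_contra hcon
  have h1 : a < Cc * B ^ 8 := not_le.1 hcon
  have h2 : a ^ 20 < (Cc * B ^ 8) ^ 20 := Nat.pow_lt_pow_left h1 (by norm_num)
  have h3 : (Cc * B ^ 8) ^ 20 = (Cc ^ 10) ^ 2 * B ^ 160 := by ring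
  have h4 : (Cc ^ 10) ^ 2 * B ^ 160 ≤ B ^ 2 * B ^ 160 :=
    Nat.mul_le_mul_right _ (Nat.pow_le_pow_left hC 2)
  have h5 : B ^ 2 * B ^ 160 = (B ^ 18) ^ 9 := by ring
  have h6 : (B ^ 18) ^ 9 ≤ r ^ 9 := Nat.pow_le_pow_left hB1 9
  rw [h3] at h2
  rw [h5] at h4
  exact absurd (lt_of_lt_of_le h2 (h4.trans (h6.trans hb))) (lt_irrefl _)

theorem lenL_mod (K : ℕ) : lenL K % 4 = 0 := by
  induction K with
  | zero => rfl
  | succ K ih =>
    rw [lenL]
    omega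

/-- The correction, with all the numerical data. -/
theorem short_aux {K E B r δ : ℕ} (hE : E = K + 10) (hB1 : B ^ 18 ≤ r) (hrB : r ≤ 2 * B ^ 18)
    (hB1000 : 1000 ≤ B) (hshi : shi (K + 1) + 10 ≤ B) (hK : K + 4 ≤ B) (C : Ctx δ r (δ * δ) E)
    (hPr : 100 * (r : ℝ) ^ 4 ≤ 101 * ((δ * δ : ℕ) : ℝ) ^ 4)
    (hhalf : (r : ℝ) ≤ 2 * ((δ * δ : ℕ) : ℝ)) (hpar : δ % 2 = r % 2)
    (hgap : δ * δ + (lenL K + 70) * B ^ 8 ≤ r) (hZ : 8 * nL (CL (K + 1)) * 2 ^ (K + 4) ≤ r) :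
    ∃ σ, Reach δ σ ∧ 0 < (r : ℝ) - σ ∧ (r : ℝ) - σ ≤ 1 / (r : ℝ) ^ K := by
  have hB8 : 1 ≤ B ^ 8 := Nat.one_le_pow _ _ (by omega)
  have hB8' : B ≤ B ^ 8 := by
    calc B = B ^ 1 := (pow_one _).symm
      _ ≤ B ^ 8 := Nat.pow_le_pow_right (by omega) (by norm_num)
  have e1 : (lenL K + 70) * B ^ 8 = lenL K * B ^ 8 + 70 * B ^ 8 := by ring
  rw [e1] at hgap
  have hrP : r ≤ 2 * (δ * δ) := by
    have h1 : (r : ℝ) ≤ ((2 * (δ * δ) : ℕ) : ℝ) := by
      rw [Nat.cast_mul 2 (δ * δ)]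
      exact hhalf
    exact_mod_cast h1
  obtain ⟨P, hP⟩ : ∃ P, P = δ * δ := ⟨_, rfl⟩
  obtain ⟨p1, T0, hp1, hp1', hm1, hRR, hT0l, hT0u⟩ := start ⟨E, C⟩ hpar (by omega) (by omega) hPr
  rw [← hP] at C hPr hhalf hgap hrP hp1 hp1'
  have hm2 : (lenL K * B ^ 8) % 4 = 0 := by
    rw [Nat.mul_mod, lenL_mod K]
    simp
  have hshi1 : shi 1 ≤ shi (K + 1) := shi_mono (by omega)
  obtain ⟨b, hb⟩ : ∃ b, b = B ^ 8 := ⟨_, rfl⟩
  obtain ⟨l, hl⟩ : ∃ l, l = lenL K * B ^ 8 := ⟨_, rfl⟩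
  rw [← hl] at hgap hm2
  rw [← hb] at hgap hB8 hB8'
  obtain ⟨T1, hRR1, hT1l, hT1u⟩ := initial C (B := B) (by omega) hB1 hrB hPr hp1 hm1
    (by rw [← hb]; omega) hT0l hT0u hRR
  rw [← hb] at hRR1
  have hst := second C (q := p1 + 48 * b) (by omega) hB1000 hB1 hPr hhalf (p := p1 + 32 * b)
    (by omega) (by omega) (by omega) (by rw [← hb]; omega) (by omega) hT1l hT1u hRR1
  have hst1 := St.lvl23 C (k := 0) (B := B) (p := p1 + 48 * b) (q := p1 + 56 * b)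
    (by omega) (by show shi 1 + 10 ≤ B; omega) (by omega) (by omega) (by omega)
    (by rw [← hb]; omega) (by omega) hst
  have hst2 := St.levels C (B := B) (by omega) (by omega) (p := p1 + 56 * b) (by omega)
    (by omega) hst1 K (by omega) (by omega) (by omega) (by rw [← hl]; omega)
  rw [← hl] at hst2
  exact finish C hhalf hZ (by omega) (p := p1 + 56 * b + l) (by omega) (by omega) (by omega) hst2

/-- **Reachable slopes very close to every large integer, started close to it.** -/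
theorem exists_short (K : ℕ) : ∃ N : ℕ, ∀ r δ : ℕ, N ≤ r → δ * δ ≤ r → δ % 2 = r % 2 →
    (r - δ * δ) ^ 2 ≤ 81 * r → r ^ 9 ≤ (r - δ * δ) ^ 20 →
    ∃ σ, Reach δ σ ∧ 0 < (r : ℝ) - σ ∧ (r : ℝ) - σ ≤ 1 / (r : ℝ) ^ K := by
  obtain ⟨Z, hZ⟩ : ∃ Z, Z = 8 * nL (CL (K + 1)) * 2 ^ (K + 4) := ⟨_, rfl⟩
  obtain ⟨W, hW⟩ : ∃ W, W = 2000000000 + (18 * (K + 10)) ^ 2 + 4096 * (K + 10 + 3) := ⟨_, rfl⟩
  obtain ⟨Cc, hCc⟩ : ∃ Cc, Cc = lenL K + 70 := ⟨_, rfl⟩
  obtain ⟨B0, hB0⟩ : ∃ B0, B0 = Cc ^ 10 + shi (K + 1) + K + Z + W := ⟨_, rfl⟩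
  have hW0 : 2000000000 ≤ W := by
    rw [hW]
    omega
  refine ⟨(B0 + 1) ^ 18, fun r δ hr hδδ hpar ha hb => ?_⟩
  obtain ⟨B, hB1, hB2⟩ := exists_root r
  have hBB0 : B0 ≤ B := by
    by_contra hcon
    have h1 : (B + 1) ^ 18 ≤ (B0 + 1) ^ 18 := Nat.pow_le_pow_left (by omega) 18
    exact absurd (lt_of_lt_of_le hB2 (h1.trans hr)) (lt_irrefl _)
  have hBr : B ≤ r := by
    calc B = B ^ 1 := (pow_one _).symm
      _ ≤ B ^ 18 := Nat.pow_le_pow_right (by omega) (by norm_num)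
      _ ≤ r := hB1
  obtain ⟨C, hPr, hhalf⟩ := ctx_of (δ := δ) (r := r) (E := K + 10) hδδ ha (by
    rw [← hW]
    omega)
  have hrB : r ≤ 2 * B ^ 18 := hB2.le.trans (root_double (by omega))
  have haB : Cc * B ^ 8 ≤ r - δ * δ := gap_bound hB1 (by omega) hb
  rw [hCc] at haB
  exact short_aux rfl hB1 hrB (by omega) (by omega) (by omega) C hPr hhalf hpar (by omega)
    (by rw [← hZ]; omega)

end Pool.Agent.H932R4
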