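import Mathlib
import Pool.Agent.H932R4.Short
import Pool.Agent.H932R4.CritPoly

set_option autoImplicit false

/-!
# All degrees outside a window of length at most `9 / 4`
-/

namespace Pool.Agent.H932R4

open Polynomial Pool.Agent.H932R2 Pool.Agent.H932R3

/-- Degrees away from the critical one. -/
def Win (n : ℕ) (S : ℝ) (d : ℕ) : Prop :=
  9 / 4 ≤ |2 * (d : ℝ) + 3 - Real.sqrt n - 2 * S / Real.sqrt n| ∨
    ∃ δ : ℕ, 0 < δ ∧ δ % 2 = n % 2 ∧ (n : ℝ) ^ (-(1 / 20) : ℝ) ≤ Real.sqrt n - δ ∧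
      Real.sqrt n - δ + 3 / δ ≤ |2 * (d : ℝ) + 3 - Real.sqrt n - 2 * S / Real.sqrt n|

/-- The data needed for the ranks. -/
structure WD (n k δ : ℕ) (σ : ℝ) : Prop where
  hδ : 24 ≤ δ
  hσ : Reach δ σ
  h3 : |σ - n| ≤ 1
  h4 : ∀ M : ℕ, M ≤ n ^ k → (M : ℝ) * |σ - n| ≤ Real.sqrt σ / (16 * δ)
  hle : (δ : ℝ) ≤ Real.sqrt n
  hwin : Real.sqrt n - δ + 3 / δ ≤ 9 / 4
  hmin : ∀ δ' : ℕ, 0 < δ' → δ' % 2 = n % 2 → (n : ℝ) ^ (-(1 / 20) : ℝ) ≤ Real.sqrt n - δ' →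
    Real.sqrt n - δ + 3 / δ ≤ Real.sqrt n - δ' + 3 / δ'

theorem exists_WD (k : ℕ) : ∃ N : ℕ, 100 ≤ N ∧ ∀ n : ℕ, N ≤ n → ∃ (δ : ℕ) (σ : ℝ), WD n k δ σ := by
  obtain ⟨N0, hN0⟩ := exists_short (k + 1)
  refine ⟨N0 + 2 ^ 60, by omega, fun n hn => ?_⟩
  have hn60 : 2 ^ 60 ≤ n := by omega
  obtain ⟨s, hs⟩ : ∃ s, s = Real.sqrt n := ⟨_, rfl⟩
  have hnR : ((2 : ℝ) ^ 60) ≤ n := by exact_mod_cast hn60
  have hn0 : (0 : ℝ) < n := lt_of_lt_of_le (by norm_num) hnR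
  have hss : s * s = n := by rw [hs]; exact Real.mul_self_sqrt hn0.le
  have hs30 : (2 : ℝ) ^ 30 ≤ s := by
    rw [hs]
    apply Real.le_sqrt_of_sq_le
    refine le_trans (le_of_eq ?_) hnR
    norm_num
  have hs0 : 0 < s := lt_of_lt_of_le (by norm_num) hs30
  obtain ⟨ν, hν⟩ : ∃ ν, ν = (n : ℝ) ^ (-(1 / 20) : ℝ) := ⟨_, rfl⟩
  have hν0 : 0 < ν := by rw [hν]; exact Real.rpow_pos_of_pos hn0 _
  have hν20 : ν ^ 20 * n = 1 := by
    have h1 : ν ^ 20 = (n : ℝ) ^ (-1 : ℝ) := by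
      rw [hν, ← Real.rpow_natCast, ← Real.rpow_mul hn0.le]
      norm_num
    rw [h1, Real.rpow_neg_one]
    field_simp
  have hν8 : ν ≤ 1 / 8 := by
    by_contra hcon
    have h1 : 1 / 8 < ν := not_le.1 hcon
    have h2 : (1 / 8 : ℝ) ^ 20 < ν ^ 20 := pow_lt_pow_left₀ h1 (by norm_num) (by norm_num)
    have h3 : (1 / 8 : ℝ) ^ 20 * 2 ^ 60 = 1 := by norm_num
    have h4 : (1 / 8 : ℝ) ^ 20 * 2 ^ 60 ≤ (1 / 8 : ℝ) ^ 20 * n :=
      mul_le_mul_of_nonneg_left hnR (by norm_num)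
    have h5 : (1 / 8 : ℝ) ^ 20 * n < ν ^ 20 * n := mul_lt_mul_of_pos_right h2 hn0
    linarith
  obtain ⟨q, hq⟩ : ∃ q, q = ⌊s - ν⌋₊ := ⟨_, rfl⟩
  have hs30' : (1000000000 : ℝ) ≤ s := le_trans (by norm_num) hs30
  have hsν : 0 ≤ s - ν := by linarith
  have hq1 : (q : ℝ) ≤ s - ν := by rw [hq]; exact Nat.floor_le hsν
  have hq2 : s - ν < q + 1 := by rw [hq]; exact Nat.lt_floor_add_one _
  have hq30 : 1000 ≤ q := by
    have : (1000 : ℝ) ≤ q := by linarith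
    exact_mod_cast this
  obtain ⟨δ, hδq, hδpar⟩ : ∃ δ, (δ = q ∨ (δ + 1 = q ∧ q % 2 ≠ n % 2)) ∧ δ % 2 = n % 2 := by
    by_cases h : q % 2 = n % 2
    · exact ⟨q, Or.inl rfl, h⟩
    · exact ⟨q - 1, Or.inr ⟨by omega, h⟩, by omega⟩
  have hδ1 : (δ : ℝ) ≤ s - ν := by
    have : (δ : ℝ) ≤ q := by
      have : δ ≤ q := by omega
      exact_mod_cast this
    linarith
  have hδ2 : s - ν - 2 < δ := by
    have : (q : ℝ) ≤ δ + 1 := by
      have : q ≤ δ + 1 := by omega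
      exact_mod_cast this
    linarith
  have hδ24 : 900 ≤ δ := by omega
  have hδR : (900 : ℝ) ≤ δ := by exact_mod_cast hδ24
  have hδ0 : (0 : ℝ) < δ := by linarith
  have hδδ : δ * δ ≤ n := by
    have : (δ : ℝ) * δ ≤ n := by
      rw [← hss]
      exact mul_le_mul (by linarith) (by linarith) hδ0.le hs0.le
    exact_mod_cast this
  have hcast : ((n - δ * δ : ℕ) : ℝ) = (s - δ) * (s + δ) := by
    rw [Nat.cast_sub hδδ, Nat.cast_mul, ← hss]
    ring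
  have ha1 : (n - δ * δ) ^ 2 ≤ 81 * n := by
    have h1 : (((n - δ * δ : ℕ)) : ℝ) ≤ 9 * s := by
      rw [hcast]
      calc (s - δ) * (s + δ) ≤ (9 / 4) * (2 * s) := by
            apply mul_le_mul (by linarith) (by linarith) (by linarith) (by norm_num)
        _ ≤ 9 * s := by linarith
    have h2 : (((n - δ * δ : ℕ)) : ℝ) ^ 2 ≤ 81 * n := by
      calc (((n - δ * δ : ℕ)) : ℝ) ^ 2 ≤ (9 * s) ^ 2 := pow_le_pow_left₀ (Nat.cast_nonneg _) h1 2
        _ = 81 * n := by rw [← hss]; ring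
    exact_mod_cast h2
  have ha2 : n ^ 9 ≤ (n - δ * δ) ^ 20 := by
    have h1 : ν * s ≤ (((n - δ * δ : ℕ)) : ℝ) := by
      rw [hcast]
      exact mul_le_mul (by linarith) (by linarith) hs0.le (by linarith)
    have h2 : (n : ℝ) ^ 9 ≤ (((n - δ * δ : ℕ)) : ℝ) ^ 20 := by
      calc (n : ℝ) ^ 9 = (ν ^ 20 * n) * (n : ℝ) ^ 9 := by rw [hν20, one_mul]
        _ = (ν * s) ^ 20 := by rw [← hss]; ring
        _ ≤ _ := pow_le_pow_left₀ (by positivity) h1 20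
    exact_mod_cast h2
  obtain ⟨σ, hσ, hσ1, hσ2⟩ := hN0 n δ (by omega) hδδ hδpar ha1 ha2
  have hn1 : (1 : ℝ) ≤ n := by linarith
  have hpow1 : (1 : ℝ) ≤ (n : ℝ) ^ k := one_le_pow₀ hn1
  have hinv : 1 / (n : ℝ) ^ (k + 1) ≤ 1 / n := by
    refine one_div_le_one_div_of_le hn0 ?_
    calc (n : ℝ) = 1 * n := (one_mul _).symm
      _ ≤ (n : ℝ) ^ k * n := mul_le_mul_of_nonneg_right hpow1 hn0.le
      _ = (n : ℝ) ^ (k + 1) := (pow_succ _ _).symm
  have hinv1 : 1 / (n : ℝ) ≤ 1 := by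
    rw [div_le_one hn0]
    exact hn1
  have habs : |σ - n| = n - σ := by rw [abs_sub_comm, abs_of_pos hσ1]
  have hwin0 : 3 / (δ : ℝ) ≤ 1 / 8 := by
    rw [div_le_div_iff₀ hδ0 (by norm_num)]
    linarith
  refine ⟨δ, σ, by omega, hσ, ?_, ?_, ?_, ?_, ?_⟩
  · rw [habs]
    linarith
  · intro M hM
    have hMR : (M : ℝ) ≤ (n : ℝ) ^ k := by exact_mod_cast hM
    rw [habs]
    have h1 : (M : ℝ) * (n - σ) ≤ (n : ℝ) ^ k * (1 / (n : ℝ) ^ (k + 1)) :=
      mul_le_mul hMR hσ2 hσ1.le (by positivity)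
    have h2 : (n : ℝ) ^ k * (1 / (n : ℝ) ^ (k + 1)) = 1 / n := by
      rw [pow_succ]
      field_simp
    have h3 : 1 ≤ Real.sqrt σ := by
      rw [Real.one_le_sqrt]
      linarith
    have h4 : 1 / (n : ℝ) ≤ Real.sqrt σ / (16 * δ) := by
      rw [div_le_div_iff₀ hn0 (by positivity), one_mul]
      calc 16 * (δ : ℝ) ≤ s * s := mul_le_mul (by linarith) (by linarith) hδ0.le hs0.le
        _ = 1 * n := by rw [hss, one_mul]
        _ ≤ Real.sqrt σ * n := mul_le_mul_of_nonneg_right h3 hn0.le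
    rw [h2] at h1
    exact h1.trans h4
  · rw [← hs]
    linarith
  · rw [← hs]
    linarith
  · intro δ' hδ'0 hδ'par hδ'
    rw [← hs, ← hν] at hδ'
    rw [← hs]
    have h1 : δ' ≤ q := by
      rw [hq, Nat.le_floor_iff hsν]
      linarith
    have h2 : δ' ≤ δ := by
      rcases hδq with h | ⟨h, hne⟩
      · omega
      · by_cases h3 : δ' = q
        · rw [h3] at hδ'par
          exact absurd hδ'par hne
        · omega
    have h3 : (δ' : ℝ) ≤ δ := by exact_mod_cast h2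
    have h4 : 3 / (δ : ℝ) ≤ 3 / δ' :=
      div_le_div_of_nonneg_left (by norm_num) (by exact_mod_cast hδ'0) h3
    linarith

theorem win_ranks {K : Type*} [Field K] [Infinite K] {n m k δ : ℕ} {σ : ℝ} (hD : WD n k δ σ)
    (hn : 100 ≤ n) (hm : 1 ≤ m) (hmk : m + 1 ≤ n ^ k)
    {𝒞 : Set (Fin n → K)} {x : Fin n → K} (hx : x ∈ 𝒞)
    (h𝒞 : AffInv 𝒞) {w : Fin n → ℕ} (hw : ∀ a, w a = m ∨ w a = m + 1)
    (hK : ∀ k : ℕ, 0 < k → k ≤ n * (m + 2) → (k : K) ≠ 0) :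
    ∃ e f : ℕ, RkS (wFam 𝒞 w) (Tset e) (Tfin e).card ∧
      RkS (wFam 𝒞 w) (Tset f) (∑ a, (w a + 1).choose 2) ∧
      ∀ d : ℕ, Win n (∑ a, (w a : ℝ)) d → d ≤ e ∨ f ≤ d := by
  by_cases hlin : ((m + 1 : ℕ) : ℝ) ≤ n - 6 * Real.sqrt n + 11
  · obtain ⟨e, h1, h2⟩ := near_rank (by omega) hm hx h𝒞 hw (near_cond (by omega) hw (Or.inl hlin)) hK
    exact ⟨e, e + 1, h1, h2, fun d _ => by omega⟩
  · have hlin' := not_le.1 hlin
    have hwin := hD.hwin
    have hmin := hD.hmin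
    have hδs := hD.hle
    have hWin : ∀ d : ℕ, Win n (∑ a, (w a : ℝ)) d → Real.sqrt n - δ + 3 / δ ≤
        |2 * (d : ℝ) + 3 - Real.sqrt n - 2 * (∑ a, (w a : ℝ)) / Real.sqrt n| := by
      rintro d (h | ⟨δ', h1, h2, h3, h4⟩)
      · exact hwin.trans h
      · exact (hmin δ' h1 h2 h3).trans h4
    obtain ⟨s, hs⟩ : ∃ s, s = Real.sqrt n := ⟨_, rfl⟩
    have hnR : (100 : ℝ) ≤ n := by exact_mod_cast hn
    have hss : s * s = n := by rw [hs]; exact Real.mul_self_sqrt (by linarith)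
    have hs10 : 10 ≤ s := by rw [hs]; exact Real.le_sqrt_of_sq_le (by norm_num; linarith)
    have hs0 : 0 < s := by linarith
    have hmR : (0 : ℝ) ≤ m := Nat.cast_nonneg m
    rw [← hs] at hlin' hwin hδs
    obtain ⟨S, hS⟩ : ∃ S, S = ∑ a, (w a : ℝ) := ⟨_, rfl⟩
    have hS1 : n * (m : ℝ) ≤ S := by
      rw [hS]
      calc n * (m : ℝ) = ∑ _a : Fin n, (m : ℝ) := by
            rw [Finset.sum_const, Finset.card_univ, Fintype.card_fin, nsmul_eq_mul]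
        _ ≤ ∑ a, (w a : ℝ) := by
            refine Finset.sum_le_sum fun a _ => ?_
            rcases hw a with h' | h' <;> rw [h']
            push_cast
            linarith
    have hS2 : S ≤ n * (m + 1) := by rw [hS]; exact sum_near_le hw
    obtain ⟨T, hT⟩ : ∃ T, T = s + 2 * S / s := ⟨_, rfl⟩
    have hT1 : s + 2 * s * m ≤ T := by
      have : 2 * s * m ≤ 2 * S / s := by
        rw [le_div_iff₀ hs0]
        nlinarith
      linarith
    have hT2 : T ≤ s + 2 * s * (m + 1) := by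
      have : 2 * S / s ≤ 2 * s * (m + 1) := by
        rw [div_le_iff₀ hs0]
        nlinarith
      linarith
    push_cast at hlin'
    rw [← hss] at hlin'
    have hm2 : s * s - 6 * s + 10 < m := by linarith
    have hT3 : s * (s - 1) * (s - 2) + 8 ≤ T := by
      have h5 : s + 2 * s * (s * s - 6 * s + 10) ≤ T := by nlinarith
      nlinarith [mul_pos hs0 hs0]
    have hδ9 : 9 ≤ δ := by
      have := hD.hδ
      omega
    have hδR : (9 : ℝ) ≤ δ := by exact_mod_cast hδ9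
    have hδ3 : ((δ * ((δ - 1) * (δ - 2)) : ℕ) : ℝ) ≤ s * (s - 1) * (s - 2) := by
      rw [Nat.cast_mul, Nat.cast_mul, Nat.cast_sub (by omega), Nat.cast_sub (by omega)]
      push_cast
      have h5 : (δ : ℝ) * ((δ - 1) * (δ - 2)) ≤ s * ((s - 1) * (s - 2)) := by
        apply mul_le_mul hδs _ _ hs0.le
        · apply mul_le_mul (by linarith) (by linarith) (by linarith) (by linarith)
        · apply mul_nonneg <;> linarith
      linarith
    obtain ⟨W, hW⟩ : ∃ W, W = s - δ + 3 / (δ : ℝ) := ⟨_, rfl⟩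
    have hW0 : 0 < W := by
      have : 0 < 3 / (δ : ℝ) := by positivity
      linarith
    rw [← hW] at hwin
    have hT0 : 0 ≤ (T - 3 - W) / 2 := by
      have : 0 ≤ s * (s - 1) * (s - 2) := by
        apply mul_nonneg (mul_nonneg hs0.le (by linarith)) (by linarith)
      linarith
    obtain ⟨e, he⟩ : ∃ e, e = ⌊(T - 3 - W) / 2⌋₊ := ⟨_, rfl⟩
    obtain ⟨f, hf⟩ : ∃ f, f = ⌈(T - 3 + W) / 2⌉₊ := ⟨_, rfl⟩
    have he1 : (e : ℝ) ≤ (T - 3 - W) / 2 := by rw [he]; exact Nat.floor_le hT0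
    have he2 : (T - 3 - W) / 2 < e + 1 := by rw [he]; exact Nat.lt_floor_add_one _
    have hf1 : (T - 3 + W) / 2 ≤ f := by rw [hf]; exact Nat.le_ceil _
    have hf2 : (f : ℝ) < (T - 3 + W) / 2 + 1 := by rw [hf]; exact Nat.ceil_lt_add_one (by linarith)
    have hef : e ≤ f := by
      have : (e : ℝ) ≤ f := by linarith
      exact_mod_cast this
    have hBf : δ * f ≤ n * (m + 2) := by
      have h5 : (δ : ℝ) * f ≤ n * (m + 2) := by
        have h6 : (f : ℝ) ≤ s * (m + 2) := by nlinarith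
        calc (δ : ℝ) * f ≤ s * (s * (m + 2)) := by
              apply mul_le_mul hδs h6 (Nat.cast_nonneg _) hs0.le
          _ = n * (m + 2) := by rw [← hss]; ring
      exact_mod_cast h5
    have hde : δ * ((δ - 1) * (δ - 2)) ≤ 2 * e := by
      have : ((δ * ((δ - 1) * (δ - 2)) : ℕ) : ℝ) ≤ ((2 * e : ℕ) : ℝ) := by
        push_cast at hδ3 ⊢
        linarith
      exact_mod_cast this
    refine ⟨e, f, ?_, ?_, fun d hd => ?_⟩
    · refine win_upper (by omega) hx h𝒞 hw hδ9 hD.hσ hD.h3 (hD.h4 _ hmk) ?_ hde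
        ((Nat.mul_le_mul_left _ hef).trans hBf) hK
      rw [← hs, ← hS, ← hT, ← hW]
      linarith
    · refine win_lower (by omega) hx h𝒞 hw hδ9 hD.hσ hD.h3 (hD.h4 _ hmk) ?_
        (hde.trans (by omega)) hBf hK
      rw [← hs, ← hS, ← hT, ← hW]
      linarith
    · have hd' := hWin d hd
      rw [← hs, ← hS, ← hW] at hd'
      have hd'' : W ≤ |2 * (d : ℝ) + 3 - T| := by
        rw [hT]
        convert hd' using 2
        ring
      rcases le_abs.1 hd'' with h5 | h5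
      · right
        rw [hf, Nat.ceil_le]
        linarith
      · left
        rw [he, Nat.le_floor_iff hT0]
        linarith

end Pool.Agent.H932R4
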