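import Mathlib
import Pool.Agent.H932R4.WinRank
import Pool.Agent.H932R3.Finals
import Pool.Agent.H932R3.Collide

set_option autoImplicit false

/-!
# All degrees outside a short window: points and collisions
-/

namespace Pool.Agent.H932R4

open Polynomial Pool.Agent.H932R2 Pool.Agent.H932R3

/-- The condition on the degree, with the half-length of the window displayed. -/
theorem Win.of {n : ℕ} {S : ℝ} {d : ℕ} {W : ℝ}
    (hW : W = 9 / 4 ∨ ∃ δ : ℕ, 0 < δ ∧ δ % 2 = n % 2 ∧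
      (n : ℝ) ^ (-(1 / 20) : ℝ) ≤ Real.sqrt n - δ ∧ W = Real.sqrt n - δ + 3 / δ)
    (hd : W ≤ |2 * (d : ℝ) + 3 - Real.sqrt n - 2 * S / Real.sqrt n|) : Win n S d := by
  rcases hW with h | ⟨δ, h1, h2, h3, h4⟩
  · left
    rw [← h]
    exact hd
  · right
    refine ⟨δ, h1, h2, h3, ?_⟩
    rw [← h4]
    exact hd

theorem sum_const_div {n m : ℕ} (hn : 0 < n) :
    (2 * ∑ _a : Fin n, (((fun _ : Fin n => m) _a : ℕ) : ℝ)) / Real.sqrt n
      = 2 * (Real.sqrt n * m) := by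
  rw [Finset.sum_const, Finset.card_univ, Fintype.card_fin, nsmul_eq_mul]
  have h2 : (0 : ℝ) < Real.sqrt n := Real.sqrt_pos.2 (by exact_mod_cast hn)
  have h3 : Real.sqrt n * Real.sqrt n = n := Real.mul_self_sqrt (Nat.cast_nonneg n)
  rw [div_eq_iff h2.ne']
  linear_combination (2 * (m : ℝ)) * (-1 : ℝ) * h3

/-- All degrees outside the window, near-uniform multiplicities. -/
theorem win_exp {L : Type*} [Field L] [CharZero L] {n m k δ : ℕ} {σ : ℝ} (hD : WD n k δ σ)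
    (hn : 100 ≤ n) (hm : 1 ≤ m) (hmk : m + 1 ≤ n ^ k)
    {w : Fin n → ℕ} (hw : ∀ a, w a = m ∨ w a = m + 1) :
    ∃ F : MvPolynomial (Fin n × Fin 2) ℚ, F ≠ 0 ∧
      ∀ P : Fin n → Fin 2 → L,
        MvPolynomial.aeval (fun ij : Fin n × Fin 2 => P ij.1 ij.2) F ≠ 0 →
        ∀ d : ℕ, Win n (∑ a, (w a : ℝ)) d → ExpDim L w P d := by
  have hx0 : (fun i : Fin n => Infinite.natEmbedding ℚ i) ∈
      {x : Fin n → ℚ | Function.Injective x} := by
    intro a b hab
    exact Fin.ext ((Infinite.natEmbedding ℚ).injective hab)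
  obtain ⟨e, f, h1, h2, h3⟩ := win_ranks (K := ℚ) hD hn hm hmk hx0 (affInv_inj n) hw
    (fun k hk _ => by exact_mod_cast hk.ne')
  obtain ⟨F, hF, hF'⟩ := points_two (L := L) h1 h2
  exact ⟨F, hF, fun P hP d hd => hF' P hP d (h3 d hd)⟩

/-- All degrees outside the window, equal multiplicities. -/
theorem win_uniform {L : Type*} [Field L] [CharZero L] {n m k δ : ℕ} {σ : ℝ} (hD : WD n k δ σ)
    (hn : 100 ≤ n) (hk : 1 ≤ k) (hm : 1 ≤ m) (hmk : m ≤ n ^ k) :
    ∃ F : MvPolynomial (Fin n × Fin 2) ℚ, F ≠ 0 ∧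
      ∀ P : Fin n → Fin 2 → L,
        MvPolynomial.aeval (fun ij : Fin n × Fin 2 => P ij.1 ij.2) F ≠ 0 →
        ∀ d : ℕ, Win n (n * m) d → ExpDim L (fun _ : Fin n => m) P d := by
  have hsum : ∑ _a : Fin n, (((fun _ : Fin n => m) _a : ℕ) : ℝ) = n * m := by
    rw [Finset.sum_const, Finset.card_univ, Fintype.card_fin, nsmul_eq_mul]
  rcases Nat.lt_or_ge 1 m with h1 | h1
  · obtain ⟨F, hF, hF'⟩ := win_exp (L := L) (n := n) (m := m - 1) (w := fun _ => m) hD hn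
      (by omega) (by omega) (fun a => Or.inr (by omega))
    rw [hsum] at hF'
    exact ⟨F, hF, hF'⟩
  · obtain ⟨F, hF, hF'⟩ := win_exp (L := L) (n := n) (m := m) (w := fun _ => m) hD hn hm
      (by
        have h2 : n ≤ n ^ k := Nat.le_self_pow (by omega) n
        omega) (fun a => Or.inl rfl)
    rw [hsum] at hF'
    exact ⟨F, hF, hF'⟩

/-- All degrees outside the window, for general collisions. -/
theorem win_collision {K : Type*} [Field K] [Infinite K] {r m k δ : ℕ} {σ : ℝ} (hD : WD r k δ σ)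
    (hr : 100 ≤ r) (hk : 1 ≤ k) (hm : 1 ≤ m) (hmk : m ≤ r ^ k)
    (hK : ∀ k : ℕ, 0 < k → k ≤ r * (m + 2) → (k : K) ≠ 0) :
    ∃ F : MvPolynomial (Fin (r + 1)) K, F ≠ 0 ∧
      ∀ (c : K) (a : Fin r → K), MvPolynomial.eval (Fin.cons c a : Fin (r + 1) → K) F ≠ 0 →
        ∀ d : ℕ, Win r (r * m) d → JetDim r m c a d := by
  have hsum : ∑ _a : Fin r, (((fun _ : Fin r => m) _a : ℕ) : ℝ) = r * m := by
    rw [Finset.sum_const, Finset.card_univ, Fintype.card_fin, nsmul_eq_mul]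
  have hx0 : (fun _ : Fin r => (0 : K)) ∈ {x : Fin r → K | ∃ c, x = fun _ => c} := ⟨0, rfl⟩
  obtain ⟨e, f, h1, h2, h3⟩ : ∃ e f : ℕ,
      RkS (wFam {x : Fin r → K | ∃ c, x = fun _ => c} fun _ => m) (Tset e) (Tfin e).card ∧
      RkS (wFam {x : Fin r → K | ∃ c, x = fun _ => c} fun _ => m) (Tset f)
        (∑ _a : Fin r, (m + 1).choose 2) ∧
      ∀ d : ℕ, Win r (r * m) d → d ≤ e ∨ f ≤ d := by
    rcases Nat.lt_or_ge 1 m with h1 | h1
    · obtain ⟨e, f, h2, h3, h4⟩ := win_ranks (K := K) (n := r) (m := m - 1) (w := fun _ => m) hD hr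
        (by omega) (by omega) hx0 (affInv_const r) (fun a => Or.inr (by omega))
        (fun k hk hk' => hK k hk (hk'.trans (Nat.mul_le_mul_left _ (by omega))))
      rw [hsum] at h4
      exact ⟨e, f, h2, h3, h4⟩
    · obtain ⟨e, f, h2, h3, h4⟩ := win_ranks (K := K) (n := r) (m := m) (w := fun _ => m) hD hr
        hm (by
          have h2 : r ≤ r ^ k := Nat.le_self_pow (by omega) r
          omega) hx0 (affInv_const r) (fun a => Or.inl rfl)
        (fun k hk hk' => hK k hk (hk'.trans (Nat.mul_le_mul_left _ (by omega))))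
      rw [hsum] at h4
      exact ⟨e, f, h2, h3, h4⟩
  obtain ⟨F1, hF1, hF1'⟩ := hopC (by omega) h1
  obtain ⟨F2, hF2, hF2'⟩ := hopC (by omega) h2
  refine ⟨F1 * F2, mul_ne_zero hF1 hF2, fun c a hP d hd => ?_⟩
  rw [map_mul] at hP
  have h5 := hF1' _ _ (left_ne_zero_of_mul hP)
  have h6 := hF2' _ _ (right_ne_zero_of_mul hP)
  rw [Finset.sum_const, Finset.card_univ, Fintype.card_fin, smul_eq_mul] at h6
  rcases h3 d hd with h7 | h7
  · exact jet_full h5 d h7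
  · exact jet_indep h6 d h7

/-- `2 S / √n = 2 √n m` for `S = n m`. -/
theorem Win.uni {n m d : ℕ} {W : ℝ} (hn : 0 < n)
    (hW : W = 9 / 4 ∨ ∃ δ : ℕ, 0 < δ ∧ δ % 2 = n % 2 ∧
      (n : ℝ) ^ (-(1 / 20) : ℝ) ≤ Real.sqrt n - δ ∧ W = Real.sqrt n - δ + 3 / δ)
    (hd : W ≤ |2 * (d : ℝ) + 3 - Real.sqrt n - 2 * (Real.sqrt n * m)|) :
    Win n (n * m) d := by
  refine Win.of hW ?_
  have h := sum_const_div (m := m) hn
  rw [Finset.sum_const, Finset.card_univ, Fintype.card_fin, nsmul_eq_mul] at h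
  rw [h]
  exact hd

end Pool.Agent.H932R4
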